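import Mathlib

set_option autoImplicit false

open Finset MeasureTheory

namespace Pool.Agent.KS6_69.PathCore

/-- Two points of `U` without a cut between them span an interval contained in `U`. -/
def Cut (U : Set ℝ) (Q : Finset ℝ) : Prop :=
  ∀ x ∈ U, ∀ y ∈ U, x < y → (∀ c ∈ Q, ¬ (x < c ∧ c < y)) → Set.Icc x y ⊆ U

lemma Cut.inter_Icc {U : Set ℝ} {Q : Finset ℝ} (h : Cut U Q) (a b : ℝ) :
    Cut (U ∩ Set.Icc a b) Q := by
  intro x hx y hy hxy hc z hz
  exact ⟨h x hx.1 y hy.1 hxy hc hz, hx.2.1.trans hz.1, hz.2.trans hy.2.2⟩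

lemma Cut.diff_Icc {U : Set ℝ} {Q : Finset ℝ} (h : Cut U Q) (a b : ℝ) :
    Cut (U \ Set.Icc a b) (insert a Q) := by
  intro x hx y hy hxy hc z hz
  refine ⟨h x hx.1 y hy.1 hxy (fun c hcQ => hc c (Finset.mem_insert_of_mem hcQ)) hz, ?_⟩
  intro hz'
  apply hx.2
  refine ⟨?_, hz.1.trans hz'.2⟩
  by_contra hxa
  push Not at hxa
  apply hc a (Finset.mem_insert_self _ _)
  refine ⟨hxa, ?_⟩
  by_contra hya
  push Not at hya
  apply hy.2
  have h1 : y = a := le_antisymm hya (hz'.1.trans hz.2)
  rw [h1]
  exact ⟨le_rfl, hz'.1.trans hz'.2⟩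

/-- A separated set in `U`. -/
lemma separated (s : ℝ) (hs : 0 ≤ s) (X : Finset ℝ) :
    ∀ (U : Set ℝ) (Q : Finset ℝ), volume U ≠ ⊤ → Cut U Q → (∀ x ∈ X, x ∈ U) →
      (∀ x ∈ X, ∀ y ∈ X, x < y → s ≤ y - x) →
      (X.card : ℝ) * s ≤ volume.real U + (Q.card + 1) * s := by
  induction X using Finset.induction_on_max with
  | empty =>
    intro U Q _ _ _ _
    simp only [Finset.card_empty, Nat.cast_zero, zero_mul]
    have : 0 ≤ volume.real U := measureReal_nonneg
    positivity
  | insert z X' hz ih =>
    intro U Q hU hC hX hsep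
    have hzX' : z ∉ X' := fun h => lt_irrefl _ (hz z h)
    rw [Finset.card_insert_of_notMem hzX']
    push_cast
    rcases X'.eq_empty_or_nonempty with he | hne
    · subst he
      have h1 : 0 ≤ volume.real U := measureReal_nonneg
      have h2 : 0 ≤ (Q.card : ℝ) * s := by positivity
      simp only [Finset.card_empty, Nat.cast_zero]
      linarith
    · set y := X'.max' hne with hy
      have hyX : y ∈ X' := Finset.max'_mem _ _
      have hyz : y < z := hz y hyX
      have hyU : y ∈ U := hX y (Finset.mem_insert_of_mem hyX)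
      have hzU : z ∈ U := hX z (Finset.mem_insert_self _ _)
      have hsyz : s ≤ z - y := hsep y (Finset.mem_insert_of_mem hyX) z
        (Finset.mem_insert_self _ _) hyz
      have hC' : Cut (U ∩ Set.Iic y) (Q.filter (fun c => c < y)) := by
        intro a ha b hb hab hc w hw
        refine ⟨hC a ha.1 b hb.1 hab ?_ hw, hw.2.trans hb.2⟩
        intro c hcQ hc'
        exact hc c (Finset.mem_filter.2 ⟨hcQ, hc'.2.trans_le hb.2⟩) hc'
      have hfin : volume (U ∩ Set.Iic y) ≠ ⊤ :=
        ne_top_of_le_ne_top hU (measure_mono Set.inter_subset_left)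
      have h1 := ih (U ∩ Set.Iic y) (Q.filter (fun c => c < y)) hfin hC'
        (fun x hx => ⟨hX x (Finset.mem_insert_of_mem hx), Finset.le_max' _ _ hx⟩)
        (fun a ha b hb hab => hsep a (Finset.mem_insert_of_mem ha) b
          (Finset.mem_insert_of_mem hb) hab)
      by_cases hcut : ∃ c ∈ Q, y < c ∧ c < z
      · obtain ⟨c, hcQ, hc1, hc2⟩ := hcut
        have h2 : (Q.filter (fun c => c < y)).card + 1 ≤ Q.card := by
          have h3 : Q.filter (fun c => c < y) ⊂ Q := by
            refine Finset.filter_ssubset.2 ⟨c, hcQ, ?_⟩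
            exact not_lt.2 hc1.le
          exact Finset.card_lt_card h3
        have h4 : volume.real (U ∩ Set.Iic y) ≤ volume.real U :=
          measureReal_mono Set.inter_subset_left hU
        have h5 : ((Q.filter (fun c => c < y)).card : ℝ) + 1 ≤ Q.card := by exact_mod_cast h2
        nlinarith
      · push Not at hcut
        have hI : Set.Icc y z ⊆ U := by
          apply hC y hyU z hzU hyz
          intro c hcQ hc
          exact absurd hc.2 (not_lt.2 (hcut c hcQ hc.1))
        have h6 : volume (U ∩ Set.Iic y) + volume (Set.Ioc y z) ≤ volume U := by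
          rw [← measure_union _ measurableSet_Ioc]
          · apply measure_mono
            apply Set.union_subset Set.inter_subset_left
            exact Set.Ioc_subset_Icc_self.trans hI
          · rw [Set.disjoint_left]
            intro w hw hw'
            exact absurd hw'.1 (not_lt.2 hw.2)
        have h7 : volume.real (U ∩ Set.Iic y) + (z - y) ≤ volume.real U := by
          have h8 := ENNReal.toReal_mono hU h6
          rw [ENNReal.toReal_add hfin (by simp), Real.volume_Ioc,
            ENNReal.toReal_ofReal (by linarith)] at h8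
          exact h8
        have h9 : ((Q.filter (fun c => c < y)).card : ℝ) ≤ Q.card := by
          exact_mod_cast Finset.card_filter_le _ _
        nlinarith

/-- The normalised height of an edge. -/
noncomputable def ht (m N : ℕ) (h : ℕ → ℝ) (e : ℕ × ℕ × ℕ) : ℝ :=
  ((e.2.1 : ℝ) / m - (e.2.2 : ℝ) / N) / h e.1

structure Good (m N D : ℕ) (h : ℕ → ℝ) (T : Finset (ℕ × ℕ × ℕ)) : Prop where
  win : ∀ e ∈ T, |(e.2.1 : ℝ) / m - (e.2.2 : ℝ) / N| ≤ h e.1
  mono_b : ∀ e ∈ T, ∀ e' ∈ T, ht m N h e ≤ ht m N h e' → e'.2.2 ≤ e.2.2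
  mono_a : ∀ e ∈ T, ∀ e' ∈ T, e.1 = e'.1 → ht m N h e ≤ ht m N h e' → e.2.1 ≤ e'.2.1
  deg_a : ∀ i a : ℕ, (T.filter (fun e => e.1 = i ∧ e.2.1 = a)).card ≤ D
  deg_b : ∀ b : ℕ, (T.filter (fun e => e.2.2 = b)).card ≤ D

lemma Good.subset {m N D : ℕ} {h : ℕ → ℝ} {T T' : Finset (ℕ × ℕ × ℕ)} (hT : Good m N D h T)
    (hs : T' ⊆ T) : Good m N D h T' where
  win e he := hT.win e (hs he)
  mono_b e he e' he' := hT.mono_b e (hs he) e' (hs he')
  mono_a e he e' he' := hT.mono_a e (hs he) e' (hs he')
  deg_a i a := (Finset.card_le_card (Finset.filter_subset_filter _ hs)).trans (hT.deg_a i a)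
  deg_b b := (Finset.card_le_card (Finset.filter_subset_filter _ hs)).trans (hT.deg_b b)

/-- The edges of one class. -/
lemma single {m N D : ℕ} {h : ℕ → ℝ} {T : Finset (ℕ × ℕ × ℕ)} (hT : Good m N D h T)
    (hm : 0 < m) (i : ℕ) (hi : 0 < h i) (hcl : ∀ e ∈ T, e.1 = i)
    (U : Set ℝ) (Q : Finset ℝ) (hU : volume U ≠ ⊤) (hC : Cut U Q)
    (hTU : ∀ e ∈ T, ht m N h e ∈ U) :
    (T.card : ℝ) * (1 / (m * h i)) ≤ D * (volume.real U + (Q.card + 1) * (1 / (m * h i))) := by
  classical
  have hm' : (0 : ℝ) < m := by exact_mod_cast hm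
  set P := T.image (fun e => e.2.1) with hP
  have hch : ∀ a ∈ P, ∃ e ∈ T, e.2.1 = a := by
    intro a ha
    simpa [hP] using ha
  choose! r hr hra using hch
  -- card T ≤ D * card P
  have hcard : T.card ≤ D * P.card := by
    have h1 : ∀ a ∈ P, (T.filter (fun e => e.2.1 = a)).card ≤ D := by
      intro a _
      refine le_trans (Finset.card_le_card ?_) (hT.deg_a i a)
      intro e he
      rw [Finset.mem_filter] at he ⊢
      exact ⟨he.1, hcl e he.1, he.2⟩
    have h2 := Finset.card_le_mul_card_image_of_maps_to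
      (s := T) (t := P) (f := fun e => e.2.1) (fun e he => Finset.mem_image_of_mem _ he) D h1
    exact h2
  set X := P.image (fun a => ht m N h (r a)) with hX
  have hlt : ∀ a ∈ P, ∀ a' ∈ P, a < a' →
      1 / (m * h i) ≤ ht m N h (r a') - ht m N h (r a) := by
    intro a ha a' ha' haa
    have e1 := hr a ha
    have e2 := hr a' ha'
    have h3 : ht m N h (r a) ≤ ht m N h (r a') := by
      by_contra hcon
      push Not at hcon
      have h4 := hT.mono_a _ e2 _ e1 (by rw [hcl _ e1, hcl _ e2]) hcon.le
      rw [hra a ha, hra a' ha'] at h4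
      omega
    have h5 := hT.mono_b _ e1 _ e2 h3
    unfold ht
    rw [hcl _ e1, hcl _ e2, ← sub_div, hra a ha, hra a' ha', one_div, mul_inv, ← div_eq_mul_inv]
    apply div_le_div_of_nonneg_right _ hi.le
    have h6 : ((r a').2.2 : ℝ) / N ≤ ((r a).2.2 : ℝ) / N := by
      apply div_le_div_of_nonneg_right _ (Nat.cast_nonneg _)
      exact_mod_cast h5
    have h7 : (a : ℝ) / m + 1 / m ≤ (a' : ℝ) / m := by
      rw [← add_div]
      apply div_le_div_of_nonneg_right _ hm'.le
      exact_mod_cast haa
    rw [one_div] at h7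
    linarith
  have hpos : 0 < 1 / ((m : ℝ) * h i) := by positivity
  have hinj : Set.InjOn (fun a => ht m N h (r a)) P := by
    intro a ha a' ha' hEq
    simp only at hEq
    rcases lt_trichotomy a a' with hlt' | heq | hgt
    · have := hlt a ha a' ha' hlt'
      rw [hEq] at this
      linarith
    · exact heq
    · have := hlt a' ha' a ha hgt
      rw [hEq] at this
      linarith
  have hXcard : X.card = P.card := Finset.card_image_of_injOn hinj
  have hsep := separated (1 / (m * h i)) hpos.le X U Q hU hC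
    (by
      intro x hx
      obtain ⟨a, ha, rfl⟩ := Finset.mem_image.1 hx
      exact hTU _ (hr a ha))
    (by
      intro x hx y hy hxy
      obtain ⟨a, ha, rfl⟩ := Finset.mem_image.1 hx
      obtain ⟨a', ha', rfl⟩ := Finset.mem_image.1 hy
      rcases lt_trichotomy a a' with hlt' | heq | hgt
      · exact hlt a ha a' ha' hlt'
      · subst heq
        exact absurd hxy (lt_irrefl _)
      · have := hlt a' ha' a ha hgt
        linarith)
  rw [hXcard] at hsep
  have hc' : (T.card : ℝ) ≤ D * P.card := by exact_mod_cast hcard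
  calc (T.card : ℝ) * (1 / (m * h i)) ≤ (D * P.card) * (1 / (m * h i)) :=
        mul_le_mul_of_nonneg_right hc' hpos.le
    _ = D * (P.card * (1 / (m * h i))) := by ring
    _ ≤ _ := mul_le_mul_of_nonneg_left hsep (Nat.cast_nonneg _)

/-- **Core estimate.** -/
theorem core {m N D : ℕ} {h : ℕ → ℝ} (hm : 0 < m) (hN : 0 < N) (hh : ∀ i, 0 < h i)
    (hanti : Antitone h) (η η' : ℝ) (k₀ : ℕ)
    (hη : ∀ i < k₀, 1 / (m * h i) ≤ η)
    (hη' : ∀ i, i + 1 < k₀ → (2 * h (i + 1) * N + 1) / (m * h i) ≤ η') (hη'0 : 0 ≤ η')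
    (hη0 : 0 ≤ η) :
    ∀ k ≤ k₀, ∀ (T : Finset (ℕ × ℕ × ℕ)) (U : Set ℝ) (Q : Finset ℝ), Good m N D h T →
      (∀ e ∈ T, e.1 < k) → (∀ e ∈ T, ht m N h e ∈ U) → volume U ≠ ⊤ → Cut U Q →
      ∑ e ∈ T, 1 / (m * h e.1) ≤ D * (volume.real U + k * η' + η * k * (Q.card + k)) := by
  intro k
  induction k with
  | zero =>
    intro _ T U Q _ hT0 _ _ _
    have : T = ∅ := by
      apply Finset.eq_empty_of_forall_notMem
      intro e he
      exact absurd (hT0 e he) (Nat.not_lt_zero _)
    subst this
    simp only [Finset.sum_empty, Nat.cast_zero, zero_mul, mul_zero, add_zero]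
    have : 0 ≤ volume.real U := measureReal_nonneg
    positivity
  | succ k ih =>
    intro hk T U Q hT hTk hTU hU hC
    have hm' : (0 : ℝ) < m := by exact_mod_cast hm
    have hN' : (0 : ℝ) < N := by exact_mod_cast hN
    by_cases hne : (T.filter (fun e => e.1 = k)).Nonempty
    · set Tk := T.filter (fun e => e.1 = k) with hTkdef
      obtain ⟨eα, heα, hmin⟩ := Finset.exists_min_image Tk (ht m N h) hne
      obtain ⟨eβ, heβ, hmax⟩ := Finset.exists_max_image Tk (ht m N h) hne
      set α := ht m N h eα
      set β := ht m N h eβ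
      have heα' := Finset.mem_filter.1 heα
      have heβ' := Finset.mem_filter.1 heβ
      have hαβ : α ≤ β := hmin eβ heβ
      -- class k
      have h1 := single (hT.subset (Finset.filter_subset _ _ : Tk ⊆ T)) hm k (hh k)
        (fun e he => (Finset.mem_filter.1 he).2) (U ∩ Set.Icc α β) Q
        (ne_top_of_le_ne_top hU (measure_mono Set.inter_subset_left)) (hC.inter_Icc α β)
        (fun e he => ⟨hTU e (Finset.mem_filter.1 he).1, hmin e he, hmax e he⟩)
      -- outside
      set To := T.filter (fun e => e.1 ≠ k ∧ ht m N h e ∉ Set.Icc α β) with hTodef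
      set Tm := T.filter (fun e => e.1 ≠ k ∧ ht m N h e ∈ Set.Icc α β) with hTmdef
      have h2 := ih (by omega) To (U \ Set.Icc α β) (insert α Q)
        (hT.subset (Finset.filter_subset _ _))
        (by
          intro e he
          obtain ⟨he1, he2, _⟩ := Finset.mem_filter.1 he
          have := hTk e he1
          omega)
        (by
          intro e he
          obtain ⟨he1, _, he2⟩ := Finset.mem_filter.1 he
          exact ⟨hTU e he1, he2⟩)
        (ne_top_of_le_ne_top hU (measure_mono Set.sdiff_subset)) (hC.diff_Icc α β)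
      -- middle
      have h3 : ∑ e ∈ Tm, 1 / (m * h e.1) ≤ D * η' := by
        rcases Nat.eq_zero_or_pos k with hk0 | hkpos
        · have : Tm = ∅ := by
            apply Finset.eq_empty_of_forall_notMem
            intro e he
            obtain ⟨he1, he2, _⟩ := Finset.mem_filter.1 he
            have := hTk e he1
            omega
          rw [this]
          simp only [Finset.sum_empty]
          positivity
        · obtain ⟨j, hj⟩ : ∃ j, k = j + 1 := ⟨k - 1, by omega⟩
          subst hj
          have hb : eβ.2.2 ≤ eα.2.2 := hT.mono_b _ heα'.1 _ heβ'.1 hαβ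
          have ha : eα.2.1 ≤ eβ.2.1 := hT.mono_a _ heα'.1 _ heβ'.1 (by rw [heα'.2, heβ'.2]) hαβ
          have hcardm : Tm.card ≤ D * (eα.2.2 - eβ.2.2 + 1) := by
            have h4 : ∀ b ∈ Finset.Icc eβ.2.2 eα.2.2, (Tm.filter (fun e => e.2.2 = b)).card ≤ D :=
              fun b _ => (hT.subset (Finset.filter_subset _ _ : Tm ⊆ T)).deg_b b
            have h5 := Finset.card_le_mul_card_image_of_maps_to
              (s := Tm) (t := Finset.Icc eβ.2.2 eα.2.2) (f := fun e => e.2.2)
              (by
                intro e he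
                obtain ⟨he1, _, he2⟩ := Finset.mem_filter.1 he
                rw [Finset.mem_Icc]
                exact ⟨hT.mono_b _ he1 _ heβ'.1 he2.2, hT.mono_b _ heα'.1 _ he1 he2.1⟩) D h4
            rw [Nat.card_Icc] at h5
            have h6 : eα.2.2 + 1 - eβ.2.2 = eα.2.2 - eβ.2.2 + 1 := by omega
            rwa [h6] at h5
          have hwα := abs_le.1 (hT.win _ heα'.1)
          have hwβ := abs_le.1 (hT.win _ heβ'.1)
          rw [heα'.2] at hwα
          rw [heβ'.2] at hwβ
          have ha' : (eα.2.1 : ℝ) / m ≤ (eβ.2.1 : ℝ) / m := by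
            apply div_le_div_of_nonneg_right _ hm'.le
            exact_mod_cast ha
          have hdiff : ((eα.2.2 - eβ.2.2 : ℕ) : ℝ) ≤ 2 * h (j + 1) * N := by
            rw [Nat.cast_sub hb]
            have h7 : (eα.2.2 : ℝ) / N - (eβ.2.2 : ℝ) / N ≤ 2 * h (j + 1) := by
              linarith [hwα.1, hwβ.2]
            rw [← sub_div, div_le_iff₀ hN'] at h7
            exact h7
          have hterm : ∀ e ∈ Tm, 1 / (m * h e.1) ≤ 1 / (m * h j) := by
            intro e he
            obtain ⟨he1, he2, _⟩ := Finset.mem_filter.1 he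
            have h8 := hTk e he1
            have h9 : h j ≤ h e.1 := hanti (by omega)
            exact one_div_le_one_div_of_le (by have := hh j; positivity)
              (mul_le_mul_of_nonneg_left h9 hm'.le)
          have hpos : 0 < 1 / ((m : ℝ) * h j) := by have := hh j; positivity
          calc ∑ e ∈ Tm, 1 / (m * h e.1) ≤ ∑ _e ∈ Tm, 1 / (m * h j) := Finset.sum_le_sum hterm
            _ = Tm.card * (1 / (m * h j)) := by rw [Finset.sum_const, nsmul_eq_mul]
            _ ≤ (D * (((eα.2.2 - eβ.2.2 : ℕ) : ℝ) + 1)) * (1 / (m * h j)) := by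
                apply mul_le_mul_of_nonneg_right _ hpos.le
                exact_mod_cast hcardm
            _ ≤ (D * (2 * h (j + 1) * N + 1)) * (1 / (m * h j)) := by
                apply mul_le_mul_of_nonneg_right _ hpos.le
                apply mul_le_mul_of_nonneg_left _ (Nat.cast_nonneg _)
                linarith
            _ = D * ((2 * h (j + 1) * N + 1) / (m * h j)) := by ring
            _ ≤ D * η' := mul_le_mul_of_nonneg_left (hη' j (by omega)) (Nat.cast_nonneg _)
      -- assemble
      have hsplit : ∑ e ∈ T, 1 / (m * h e.1) =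
          ∑ e ∈ Tk, 1 / (m * h e.1) + (∑ e ∈ Tm, 1 / (m * h e.1) + ∑ e ∈ To, 1 / (m * h e.1)) := by
        rw [← Finset.sum_filter_add_sum_filter_not T (fun e => e.1 = k)]
        congr 1
        rw [← Finset.sum_filter_add_sum_filter_not (T.filter (fun e => ¬ e.1 = k))
          (fun e => ht m N h e ∈ Set.Icc α β), Finset.filter_filter, Finset.filter_filter]
      have hk1 : ∑ e ∈ Tk, 1 / (m * h e.1) = Tk.card * (1 / (m * h k)) := by
        rw [Finset.sum_congr rfl (g := fun _ => 1 / (m * h k)), Finset.sum_const, nsmul_eq_mul]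
        intro e he
        rw [(Finset.mem_filter.1 he).2]
      have hvol : volume.real (U ∩ Set.Icc α β) + volume.real (U \ Set.Icc α β) = volume.real U :=
        measureReal_inter_add_sdiff measurableSet_Icc hU
      have hηk : 1 / (m * h k) ≤ η := hη k (by omega)
      have hcQ : ((insert α Q).card : ℝ) ≤ Q.card + 1 := by
        exact_mod_cast Finset.card_insert_le _ _
      rw [hsplit, hk1]
      have hD : (0 : ℝ) ≤ D := Nat.cast_nonneg _
      have hQ0 : (0 : ℝ) ≤ Q.card := Nat.cast_nonneg _
      have hk0' : (0 : ℝ) ≤ k := Nat.cast_nonneg _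
      have e1 : (Q.card + 1 : ℝ) * (1 / (m * h k)) ≤ (Q.card + 1) * η :=
        mul_le_mul_of_nonneg_left hηk (by positivity)
      have e2 : η * k * ((insert α Q).card + k) ≤ η * k * (Q.card + 1 + k) :=
        mul_le_mul_of_nonneg_left (by linarith) (by positivity)
      have e3 : (volume.real (U ∩ Set.Icc α β) + (Q.card + 1) * (1 / (m * h k))) + (η' +
          (volume.real (U \ Set.Icc α β) + k * η' + η * k * ((insert α Q).card + k))) ≤
          volume.real U + ((k + 1 : ℕ) : ℝ) * η' + η * ((k + 1 : ℕ) : ℝ) * (Q.card + ((k + 1 : ℕ) : ℝ)) := by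
        push_cast
        have e4 : 0 ≤ η * k := by positivity
        nlinarith
      calc _ ≤ D * (volume.real (U ∩ Set.Icc α β) + (Q.card + 1) * (1 / (m * h k))) + (D * η' +
          D * (volume.real (U \ Set.Icc α β) + k * η' + η * k * ((insert α Q).card + k))) :=
            add_le_add h1 (add_le_add h3 h2)
        _ = D * ((volume.real (U ∩ Set.Icc α β) + (Q.card + 1) * (1 / (m * h k))) + (η' +
          (volume.real (U \ Set.Icc α β) + k * η' + η * k * ((insert α Q).card + k)))) := by ring
        _ ≤ _ := mul_le_mul_of_nonneg_left e3 hD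
    · rw [Finset.not_nonempty_iff_eq_empty] at hne
      have h1 := ih (by omega) T U Q hT (by
        intro e he
        have h2 := hTk e he
        have h3 : e.1 ≠ k := by
          intro h4
          have : e ∈ T.filter (fun e => e.1 = k) := Finset.mem_filter.2 ⟨he, h4⟩
          rw [hne] at this
          simp at this
        omega) hTU hU hC
      refine h1.trans (mul_le_mul_of_nonneg_left ?_ (Nat.cast_nonneg _))
      push_cast
      have hQ0 : (0 : ℝ) ≤ Q.card := Nat.cast_nonneg _
      have hk0' : (0 : ℝ) ≤ k := Nat.cast_nonneg _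
      have e4 : 0 ≤ η * k := by positivity
      have e5 : 0 ≤ η * Q.card := by positivity
      nlinarith

end Pool.Agent.KS6_69.PathCore
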