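import Mathlib
import Pool.Agent.KS6_69.PathCore

set_option autoImplicit false

open Finset MeasureTheory Filter Topology

namespace Pool.Agent.KS6_69.PathGeo

open Pool.Agent.KS6_69.PathCore

abbrev Pt := ℝ × ℝ

/-- the orientation determinant -/
def Dt (a b c : Pt) : ℝ := (b.1 - a.1) * (c.2 - a.2) - (b.2 - a.2) * (c.1 - a.1)

lemma Dt_cyc (a b c : Pt) : Dt a b c = Dt b c a := by unfold Dt; ring

lemma Dt_col {a b c : Pt} (h : Collinear ℝ {a, b, c}) : Dt a b c = 0 := by
  obtain ⟨v, hv⟩ := (collinear_iff_of_mem (p₀ := a) (by simp)).1 h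
  obtain ⟨r, hr⟩ := hv b (by simp)
  obtain ⟨s, hs⟩ := hv c (by simp)
  rw [hr, hs]
  simp [Dt]; ring

lemma cross (a b c d : Pt) (h1 : 0 < Dt a b c) (h2 : 0 < Dt b c d) (h3 : 0 < Dt c d a)
    (h4 : 0 < Dt d a b) : (segment ℝ a c ∩ segment ℝ b d).Nonempty := by
  have hS : Dt b c d + Dt d a b = Dt c d a + Dt a b c := by unfold Dt; ring
  have S0 : Dt b c d + Dt d a b ≠ 0 := by linarith
  refine ⟨(Dt b c d / (Dt b c d + Dt d a b)) • a + (Dt d a b / (Dt b c d + Dt d a b)) • c,
    ⟨_, _, by positivity, by positivity, by field_simp, rfl⟩,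
    ⟨Dt c d a / (Dt b c d + Dt d a b), Dt a b c / (Dt b c d + Dt d a b), by positivity,
      by positivity, by rw [← add_div, ← hS]; field_simp, ?_⟩⟩
  ext
  · simp only [Prod.fst_add, Prod.smul_fst, smul_eq_mul]
    field_simp
    unfold Dt; ring
  · simp only [Prod.snd_add, Prod.smul_snd, smul_eq_mul]
    field_simp
    unfold Dt; ring

/-- A noncrossing relation (set of edges) of maximum degree at most `D`. -/
structure Pl (D : ℕ) (R : Pt → Pt → Prop) : Prop where
  symm : ∀ a b, R a b → R b a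
  deg : ∀ (a : Pt) (J : Finset Pt), (∀ j ∈ J, R a j) → J.card ≤ D
  nc : ∀ a b c d, R a b → R c d → s(a, b) ≠ s(c, d) →
    segment ℝ a b ∩ segment ℝ c d ⊆ {a, b} ∩ {c, d}

/-- Crossing segments cannot both be edges. -/
lemma Pl.no_cross {D : ℕ} {R : Pt → Pt → Prop} (h : Pl D R) {a b c d : Pt}
    (h1 : 0 < Dt a b c) (h2 : 0 < Dt b c d) (h3 : 0 < Dt c d a) (h4 : 0 < Dt d a b)
    (hac : R a c) (hbd : R b d) : False := by
  have hab : a ≠ b := by rintro rfl; simp [Dt] at h1
  have hbc : b ≠ c := by rintro rfl; simp [Dt] at h2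
  have hcd : c ≠ d := by rintro rfl; simp [Dt] at h3
  have hda : d ≠ a := by rintro rfl; simp [Dt] at h4
  obtain ⟨z, hz1, hz2⟩ := cross a b c d h1 h2 h3 h4
  have hne : s(a, c) ≠ s(b, d) := by
    intro he
    rw [Sym2.eq_iff] at he
    rcases he with ⟨h5, _⟩ | ⟨h5, _⟩
    · exact hab h5
    · exact hda h5.symm
  have h6 := h.nc a c b d hac hbd hne ⟨hz1, hz2⟩
  obtain ⟨h7, h8⟩ := h6
  simp only [Set.mem_insert_iff, Set.mem_singleton_iff] at h7 h8
  rcases h7 with rfl | rfl
  · rcases h8 with h8 | h8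
    · exact hab h8
    · exact hda h8.symm
  · rcases h8 with h8 | h8
    · exact hbc h8.symm
    · exact hcd h8

lemma quad_ne (α β γ : ℝ) (hγ : γ ≠ 0) : ∀ᶠ t in 𝓝[>] (0 : ℝ), α + β * t + γ * t ^ 2 ≠ 0 := by
  by_cases hα : α = 0
  · by_cases hβ : β = 0
    · filter_upwards [self_mem_nhdsWithin] with t ht
      have ht' : (0 : ℝ) < t := ht
      rw [hα, hβ]
      simp only [zero_mul, zero_add]
      exact mul_ne_zero hγ (pow_ne_zero _ ht'.ne')
    · have hc : Tendsto (fun t : ℝ => β + γ * t) (𝓝[>] 0) (𝓝 (β + γ * 0)) :=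
        ((by fun_prop : Continuous fun t : ℝ => β + γ * t).tendsto 0).mono_left nhdsWithin_le_nhds
      have h1 : ∀ᶠ t in 𝓝[>] (0 : ℝ), β + γ * t ≠ 0 :=
        hc.eventually_ne (by simpa using hβ)
      filter_upwards [self_mem_nhdsWithin, h1] with t ht h2
      have ht' : (0 : ℝ) < t := ht
      have h3 : α + β * t + γ * t ^ 2 = t * (β + γ * t) := by rw [hα]; ring
      rw [h3]
      exact mul_ne_zero ht'.ne' h2
  · have hc : Tendsto (fun t : ℝ => α + β * t + γ * t ^ 2) (𝓝[>] 0)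
        (𝓝 (α + β * 0 + γ * 0 ^ 2)) :=
      ((by fun_prop : Continuous fun t : ℝ => α + β * t + γ * t ^ 2).tendsto 0).mono_left
        nhdsWithin_le_nhds
    exact hc.eventually_ne (by simpa using hα)

/-- **Perturbation to general position.** -/
theorem perturb {ι : Type*} [Encodable ι] (S : Finset ι) (p₀ : ι → Pt) :
    ∃ p : ι → Pt, Set.InjOn p S ∧
      (∀ a ∈ S, ∀ b ∈ S, ∀ c ∈ S, a ≠ b → a ≠ c → b ≠ c → Dt (p a) (p b) (p c) ≠ 0) ∧
      ∀ a ∈ S, ∀ b ∈ S, ∀ c ∈ S, 0 < Dt (p₀ a) (p₀ b) (p₀ c) → 0 < Dt (p a) (p b) (p c) := by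
  classical
  let j : ι → ℝ := fun a => (Encodable.encode a : ℝ)
  have hj : Function.Injective j := by
    intro a b hab
    have h1 : (Encodable.encode a : ℝ) = (Encodable.encode b : ℝ) := hab
    exact Encodable.encode_injective (by exact_mod_cast h1)
  let p : ℝ → ι → Pt := fun t a => ((p₀ a).1 + t * j a, (p₀ a).2 + t * (j a) ^ 2)
  have hcont : ∀ a b c, Continuous fun t => Dt (p t a) (p t b) (p t c) := by
    intro a b c
    unfold Dt
    fun_prop
  have hp0 : ∀ a, p 0 a = p₀ a := by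
    intro a
    simp [p]
  have e1 : ∀ᶠ t in 𝓝[>] (0 : ℝ), ∀ a ∈ S, ∀ b ∈ S, a ≠ b → p t a ≠ p t b := by
    rw [Filter.eventually_all_finset]
    intro a _
    rw [Filter.eventually_all_finset]
    intro b _
    by_cases hab : a = b
    · exact Filter.Eventually.of_forall (fun t h => absurd hab h)
    · have hne : j a - j b ≠ 0 := sub_ne_zero.2 (fun h => hab (hj h))
      by_cases h0 : (p₀ a).1 - (p₀ b).1 = 0
      · filter_upwards [self_mem_nhdsWithin] with t ht _ heq
        have ht' : (0 : ℝ) < t := ht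
        have h1 : (p₀ a).1 + t * j a = (p₀ b).1 + t * j b := congrArg Prod.fst heq
        have h2 : t * (j a - j b) = 0 := by linarith
        exact (mul_ne_zero ht'.ne' hne) h2
      · have hc : Tendsto (fun t : ℝ => ((p₀ a).1 - (p₀ b).1) + t * (j a - j b)) (𝓝[>] 0)
            (𝓝 (((p₀ a).1 - (p₀ b).1) + 0 * (j a - j b))) :=
          ((by fun_prop : Continuous fun t : ℝ =>
            ((p₀ a).1 - (p₀ b).1) + t * (j a - j b)).tendsto 0).mono_left nhdsWithin_le_nhds
        filter_upwards [hc.eventually_ne (by simpa using h0)] with t h1 _ heq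
        have h2 : (p₀ a).1 + t * j a = (p₀ b).1 + t * j b := congrArg Prod.fst heq
        apply h1
        linarith
  have e2 : ∀ᶠ t in 𝓝[>] (0 : ℝ), ∀ a ∈ S, ∀ b ∈ S, ∀ c ∈ S, a ≠ b → a ≠ c → b ≠ c →
      Dt (p t a) (p t b) (p t c) ≠ 0 := by
    rw [Filter.eventually_all_finset]
    intro a _
    rw [Filter.eventually_all_finset]
    intro b _
    rw [Filter.eventually_all_finset]
    intro c _
    by_cases h : a ≠ b ∧ a ≠ c ∧ b ≠ c
    · obtain ⟨h1, h2, h3⟩ := h
      have g1 : j b - j a ≠ 0 := sub_ne_zero.2 (fun h => h1 (hj h).symm)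
      have g2 : j c - j a ≠ 0 := sub_ne_zero.2 (fun h => h2 (hj h).symm)
      have g3 : j c - j b ≠ 0 := sub_ne_zero.2 (fun h => h3 (hj h).symm)
      have hγ : (j b - j a) * ((j c) ^ 2 - (j a) ^ 2) - ((j b) ^ 2 - (j a) ^ 2) * (j c - j a) ≠
          0 := by
        have : (j b - j a) * ((j c) ^ 2 - (j a) ^ 2) - ((j b) ^ 2 - (j a) ^ 2) * (j c - j a) =
            (j b - j a) * (j c - j a) * (j c - j b) := by ring
        rw [this]
        exact mul_ne_zero (mul_ne_zero g1 g2) g3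
      have h4 := quad_ne (Dt (p₀ a) (p₀ b) (p₀ c))
        ((j b - j a) * ((p₀ c).2 - (p₀ a).2) + ((p₀ b).1 - (p₀ a).1) * ((j c) ^ 2 - (j a) ^ 2) -
          ((j b) ^ 2 - (j a) ^ 2) * ((p₀ c).1 - (p₀ a).1) -
          ((p₀ b).2 - (p₀ a).2) * (j c - j a)) _ hγ
      filter_upwards [h4] with t h5 _ _ _ h6
      apply h5
      rw [← h6]
      simp only [Dt, p]
      ring
    · refine Filter.Eventually.of_forall (fun t g1 g2 g3 => ?_)
      exact absurd ⟨g1, g2, g3⟩ h
  have e3 : ∀ᶠ t in 𝓝[>] (0 : ℝ), ∀ a ∈ S, ∀ b ∈ S, ∀ c ∈ S,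
      0 < Dt (p₀ a) (p₀ b) (p₀ c) → 0 < Dt (p t a) (p t b) (p t c) := by
    rw [Filter.eventually_all_finset]
    intro a _
    rw [Filter.eventually_all_finset]
    intro b _
    rw [Filter.eventually_all_finset]
    intro c _
    by_cases h : 0 < Dt (p₀ a) (p₀ b) (p₀ c)
    · have h1 : Tendsto (fun t => Dt (p t a) (p t b) (p t c)) (𝓝[>] 0)
          (𝓝 (Dt (p 0 a) (p 0 b) (p 0 c))) :=
        ((hcont a b c).tendsto 0).mono_left nhdsWithin_le_nhds
      rw [hp0, hp0, hp0] at h1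
      filter_upwards [h1.eventually (lt_mem_nhds h)] with t ht _
      exact ht
    · exact Filter.Eventually.of_forall (fun t g => absurd g h)
  obtain ⟨t, h1, h2, h3⟩ := (e1.and (e2.and e3)).exists
  refine ⟨p t, ?_, h2, h3⟩
  intro a ha b hb hab
  by_contra hne
  exact h1 a ha b hb hne hab

/-! ### The configuration -/

/-- the abscissa of a column: `τ / (1 - τ)` -/
noncomputable def xc (δ : ℝ) (h : ℕ → ℝ) (i : ℕ) : ℝ := δ / h i / (1 - δ / h i)

noncomputable def p₀ (m N : ℕ) (δ : ℝ) (h : ℕ → ℝ) : ℕ × ℕ × ℕ → Pt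
  | (0, i, a) => (xc δ h i, xc δ h i * ((a : ℝ) / m))
  | (1, b, _) => (-1, -((b : ℝ) / N))
  | _ => (0, 0)

/-- formula for the orientation of a point of the left column and two points of right columns -/
lemma Dt_formula (τ τ' s s' β : ℝ) (h : τ < 1) (h' : τ' < 1) :
    Dt (-1, -β) (τ / (1 - τ), τ / (1 - τ) * s) (τ' / (1 - τ'), τ' / (1 - τ') * s') =
      (τ' * (s' - β) - τ * (s - β)) / ((1 - τ) * (1 - τ')) := by
  have h1 : 1 - τ ≠ 0 := by linarith
  have h2 : 1 - τ' ≠ 0 := by linarith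
  unfold Dt
  field_simp
  ring

lemma Dt_formula2 (τ s β β' : ℝ) (h : τ < 1) :
    Dt (-1, -β) (-1, -β') (τ / (1 - τ), τ / (1 - τ) * s) = (β' - β) / (1 - τ) := by
  have h1 : 1 - τ ≠ 0 := by linarith
  unfold Dt
  field_simp
  ring

/-- The four orientation inequalities of a crossing pair. -/
lemma four (τ τ' s s' β β' : ℝ) (h : τ < 1) (h' : τ' < 1)
    (hβ : β < β') (h1 : τ * (s - β) < τ' * (s' - β)) (h2 : τ * (s - β') < τ' * (s' - β')) :
    0 < Dt (-1, -β) (-1, -β') (τ / (1 - τ), τ / (1 - τ) * s) ∧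
    0 < Dt (-1, -β') (τ / (1 - τ), τ / (1 - τ) * s) (τ' / (1 - τ'), τ' / (1 - τ') * s') ∧
    0 < Dt (τ / (1 - τ), τ / (1 - τ) * s) (τ' / (1 - τ'), τ' / (1 - τ') * s') (-1, -β) ∧
    0 < Dt (τ' / (1 - τ'), τ' / (1 - τ') * s') (-1, -β) (-1, -β') := by
  have g1 : 0 < 1 - τ := by linarith
  have g2 : 0 < 1 - τ' := by linarith
  refine ⟨?_, ?_, ?_, ?_⟩
  · rw [Dt_formula2 _ _ _ _ h]
    exact div_pos (by linarith) g1
  · rw [Dt_formula _ _ _ _ _ h h']
    exact div_pos (by linarith) (by positivity)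
  · rw [← Dt_cyc, Dt_formula _ _ _ _ _ h h']
    exact div_pos (by linarith) (by positivity)
  · rw [Dt_cyc, Dt_formula2 _ _ _ _ h']
    exact div_pos (by linarith) g2

/-- index of a point of a right column -/
def iu (i a : ℕ) : ℕ × ℕ × ℕ := (0, i, a)
/-- index of a point of the left column -/
def iv (b : ℕ) : ℕ × ℕ × ℕ := (1, b, 0)

/-- the index set -/
def ind (k m N n : ℕ) : Finset (ℕ × ℕ × ℕ) :=
  ((range k ×ˢ range m).image (fun x => (0, x.1, x.2)) ∪ (range N).image (fun b => (1, b, 0))) ∪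
    (range (n - (k * m + N))).image (fun b => (2, b, 0))

lemma card_ind (k m N n : ℕ) (hn : k * m + N ≤ n) : (ind k m N n).card = n := by
  unfold ind
  rw [Finset.card_union_of_disjoint, Finset.card_union_of_disjoint, Finset.card_image_of_injective,
    Finset.card_image_of_injective, Finset.card_image_of_injective]
  · simp only [card_product, card_range]
    omega
  · intro a b hab
    simpa using hab
  · intro a b hab
    simpa using hab
  · intro a b hab
    simp only [Prod.mk.injEq, true_and] at hab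
    exact Prod.ext hab.1 hab.2
  · rw [Finset.disjoint_left]
    intro x hx hy
    simp only [mem_image, mem_product, mem_range, Prod.exists] at hx hy
    obtain ⟨a, b, _, rfl⟩ := hx
    obtain ⟨c, _, h⟩ := hy
    simp at h
  · rw [Finset.disjoint_left]
    intro x hx hy
    simp only [mem_union, mem_image, mem_product, mem_range, Prod.exists] at hx hy
    obtain ⟨c, _, rfl⟩ := hy
    rcases hx with ⟨a, b, _, h⟩ | ⟨a, _, h⟩ <;> simp at h

lemma iu_mem {k m N n i a : ℕ} (hi : i < k) (ha : a < m) : iu i a ∈ ind k m N n := by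
  unfold ind iu
  rw [mem_union, mem_union, mem_image]
  exact Or.inl (Or.inl ⟨(i, a), by simp [hi, ha], rfl⟩)

lemma iv_mem {k m N n b : ℕ} (hb : b < N) : iv b ∈ ind k m N n := by
  unfold ind iv
  rw [mem_union, mem_union, mem_image, mem_image]
  exact Or.inl (Or.inr ⟨b, by simp [hb], rfl⟩)

/-- all edges of all classes -/
noncomputable def EE (k m N : ℕ) (h : ℕ → ℝ) : Finset (ℕ × ℕ × ℕ) :=
  open Classical in
  (range k ×ˢ range m ×ˢ range N).filter
    (fun e => |(e.2.1 : ℝ) / m - (e.2.2 : ℝ) / N| ≤ h e.1)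

lemma mem_EE {k m N : ℕ} {h : ℕ → ℝ} {e : ℕ × ℕ × ℕ} : e ∈ EE k m N h ↔
    (e.1 < k ∧ e.2.1 < m ∧ e.2.2 < N) ∧ |(e.2.1 : ℝ) / m - (e.2.2 : ℝ) / N| ≤ h e.1 := by
  classical
  simp [EE]

/-- **The configuration theorem.** -/
theorem conf (k m N n : ℕ) (h : ℕ → ℝ) (hm : 0 < m) (hN : 0 < N) (hh : ∀ i, 0 < h i)
    (hanti : Antitone h) (hn : k * m + N ≤ n) (η η' : ℝ) (hη0 : 0 ≤ η) (hη'0 : 0 ≤ η')
    (hη : ∀ i < k, 1 / (m * h i) ≤ η)
    (hη' : ∀ i, i + 1 < k → (2 * h (i + 1) * N + 1) / (m * h i) ≤ η') :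
    ∃ A : Finset Pt, A.card = n ∧
      (∀ a ∈ A, ∀ b ∈ A, ∀ c ∈ A, a ≠ b → a ≠ c → b ≠ c → ¬ Collinear ℝ {a, b, c}) ∧
      ∀ (D M : ℕ) (R : Fin M → Pt → Pt → Prop), (∀ s, Pl D (R s)) →
        (∀ a ∈ A, ∀ b ∈ A, a ≠ b → ∃ s, R s a b) →
        ∑ e ∈ EE k m N h, 1 / (m * h e.1) ≤ M * (D * (2 + k * η' + η * k * k)) := by
  classical
  -- choose `δ`
  obtain ⟨δ, hδ0, hδ⟩ : ∃ δ : ℝ, 0 < δ ∧ ∀ i < k, δ / h i < 1 := by
    refine ⟨h k / 2, by have := hh k; positivity, fun i hi => ?_⟩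
    have h1 : h k ≤ h i := hanti hi.le
    have h2 := hh k
    rw [div_lt_one (hh i)]
    linarith
  obtain ⟨p, hinj, hgen, hpos⟩ := perturb (ind k m N n) (p₀ m N δ h)
  refine ⟨(ind k m N n).image p, ?_, ?_, ?_⟩
  · rw [Finset.card_image_of_injOn hinj, card_ind k m N n hn]
  · intro a ha b hb c hc h1 h2 h3 hcol
    obtain ⟨a, ha', rfl⟩ := mem_image.1 ha
    obtain ⟨b, hb', rfl⟩ := mem_image.1 hb
    obtain ⟨c, hc', rfl⟩ := mem_image.1 hc
    exact hgen a ha' b hb' c hc' (fun h => h1 (h ▸ rfl)) (fun h => h2 (h ▸ rfl))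
      (fun h => h3 (h ▸ rfl)) (Dt_col hcol)
  · intro D M R hR hcov
    -- the edges of one member
    let T : Fin M → Finset (ℕ × ℕ × ℕ) := fun s =>
      (EE k m N h).filter (fun e => R s (p (iu e.1 e.2.1)) (p (iv e.2.2)))
    have hgood : ∀ s, Good m N D h (T s) := by
      intro s
      have hmem : ∀ e ∈ T s, (e.1 < k ∧ e.2.1 < m ∧ e.2.2 < N) ∧
          |(e.2.1 : ℝ) / m - (e.2.2 : ℝ) / N| ≤ h e.1 ∧
          R s (p (iu e.1 e.2.1)) (p (iv e.2.2)) := by
        intro e he
        obtain ⟨h1, h2⟩ := mem_filter.1 he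
        obtain ⟨h3, h4⟩ := mem_EE.1 h1
        exact ⟨h3, h4, h2⟩
      -- no crossing pair
      have key : ∀ e ∈ T s, ∀ e' ∈ T s, (e.2.2 : ℝ) / N < (e'.2.2 : ℝ) / N →
          δ / h e.1 * ((e.2.1 : ℝ) / m - (e.2.2 : ℝ) / N) <
            δ / h e'.1 * ((e'.2.1 : ℝ) / m - (e.2.2 : ℝ) / N) →
          δ / h e.1 * ((e.2.1 : ℝ) / m - (e'.2.2 : ℝ) / N) <
            δ / h e'.1 * ((e'.2.1 : ℝ) / m - (e'.2.2 : ℝ) / N) → False := by
        intro e he e' he' h1 h2 h3
        obtain ⟨⟨a1, a2, a3⟩, _, a5⟩ := hmem e he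
        obtain ⟨⟨b1, b2, b3⟩, _, b5⟩ := hmem e' he'
        obtain ⟨f1, f2, f3, f4⟩ := four _ _ _ _ _ _ (hδ _ a1) (hδ _ b1) h1 h2 h3
        have m1 : iv e.2.2 ∈ ind k m N n := iv_mem a3
        have m2 : iv e'.2.2 ∈ ind k m N n := iv_mem b3
        have m3 : iu e.1 e.2.1 ∈ ind k m N n := iu_mem a1 a2
        have m4 : iu e'.1 e'.2.1 ∈ ind k m N n := iu_mem b1 b2
        exact (hR s).no_cross (hpos _ m1 _ m2 _ m3 f1) (hpos _ m2 _ m3 _ m4 f2)
          (hpos _ m3 _ m4 _ m1 f3) (hpos _ m4 _ m1 _ m2 f4) ((hR s).symm _ _ a5)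
          ((hR s).symm _ _ b5)
      have hN' : (0 : ℝ) < N := by exact_mod_cast hN
      have hm' : (0 : ℝ) < m := by exact_mod_cast hm
      have hht : ∀ e : ℕ × ℕ × ℕ, δ / h e.1 * ((e.2.1 : ℝ) / m - (e.2.2 : ℝ) / N) =
          δ * ht m N h e := by
        intro e
        unfold ht
        ring
      refine ⟨fun e he => (hmem e he).2.1, ?_, ?_, ?_, ?_⟩
      · intro e he e' he' hle
        by_contra hcon
        push Not at hcon
        have h1 : (e.2.2 : ℝ) / N < (e'.2.2 : ℝ) / N :=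
          div_lt_div_of_pos_right (by exact_mod_cast hcon) hN'
        have h2 := hht e
        have h3 := hht e'
        have h4 : δ * ht m N h e ≤ δ * ht m N h e' := mul_le_mul_of_nonneg_left hle hδ0.le
        have h5 : 0 < δ / h e.1 := div_pos hδ0 (hh _)
        have h6 : 0 < δ / h e'.1 := div_pos hδ0 (hh _)
        refine key e he e' he' h1 ?_ ?_
        · nlinarith
        · nlinarith
      · intro e he e' he' hcl hle
        by_contra hcon
        push Not at hcon
        have h1 : (e'.2.1 : ℝ) / m < (e.2.1 : ℝ) / m :=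
          div_lt_div_of_pos_right (by exact_mod_cast hcon) hm'
        have h2 : (e.2.1 : ℝ) / m - (e.2.2 : ℝ) / N ≤ (e'.2.1 : ℝ) / m - (e'.2.2 : ℝ) / N := by
          unfold ht at hle
          rw [hcl] at hle
          exact (div_le_div_iff_of_pos_right (hh _)).1 hle
        have h5 : 0 < δ / h e'.1 := div_pos hδ0 (hh _)
        refine key e' he' e he (by linarith) ?_ ?_
        · rw [hcl]
          exact mul_lt_mul_of_pos_left (by linarith) h5
        · rw [hcl]
          exact mul_lt_mul_of_pos_left (by linarith) h5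
      · intro i a
        set F := (T s).filter (fun e => e.1 = i ∧ e.2.1 = a) with hF
        rcases F.eq_empty_or_nonempty with he | ⟨e0, he0⟩
        · rw [he]; simp
        · have h0 := (mem_filter.1 he0)
          have h1 := (hR s).deg (p (iu i a)) (F.image (fun e => p (iv e.2.2))) (by
            intro x hx
            obtain ⟨e, he, rfl⟩ := mem_image.1 hx
            obtain ⟨h2, h3, h4⟩ := mem_filter.1 he
            rw [← h3, ← h4]
            exact (hmem e h2).2.2)
          rwa [Finset.card_image_of_injOn] at h1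
          intro e he e' he' heq
          obtain ⟨h2, h3, h4⟩ := mem_filter.1 he
          obtain ⟨h2', h3', h4'⟩ := mem_filter.1 he'
          have h5 := hinj (iv_mem (hmem e h2).1.2.2) (iv_mem (hmem e' h2').1.2.2) heq
          simp only [iv, Prod.mk.injEq, true_and, and_true] at h5
          exact Prod.ext (h3.trans h3'.symm) (Prod.ext (h4.trans h4'.symm) h5)
      · intro b
        set F := (T s).filter (fun e => e.2.2 = b) with hF
        have h1 := (hR s).deg (p (iv b)) (F.image (fun e => p (iu e.1 e.2.1))) (by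
            intro x hx
            obtain ⟨e, he, rfl⟩ := mem_image.1 hx
            obtain ⟨h2, h3⟩ := mem_filter.1 he
            rw [← h3]
            exact (hR s).symm _ _ (hmem e h2).2.2)
        rwa [Finset.card_image_of_injOn] at h1
        intro e he e' he' heq
        obtain ⟨h2, h3⟩ := mem_filter.1 he
        obtain ⟨h2', h3'⟩ := mem_filter.1 he'
        have h5 := hinj (iu_mem (hmem e h2).1.1 (hmem e h2).1.2.1)
          (iu_mem (hmem e' h2').1.1 (hmem e' h2').1.2.1) heq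
        simp only [iu, Prod.mk.injEq, true_and] at h5
        exact Prod.ext h5.1 (Prod.ext h5.2 (h3.trans h3'.symm))
    -- the bound for one member
    have hone : ∀ s, ∑ e ∈ T s, 1 / (m * h e.1) ≤ D * (2 + k * η' + η * k * k) := by
      intro s
      have h1 := core hm hN hh hanti η η' k hη hη' hη'0 hη0 k le_rfl (T s)
        (Set.Icc (-1) 1) ∅ (hgood s)
        (fun e he => (mem_EE.1 (mem_filter.1 he).1).1.1)
        (by
          intro e he
          have h2 := abs_le.1 (mem_EE.1 (mem_filter.1 he).1).2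
          have h3 := hh e.1
          unfold ht
          rw [Set.mem_Icc, le_div_iff₀ h3, div_le_iff₀ h3]
          constructor <;> linarith [h2.1, h2.2])
        (by simp)
        (by
          intro x hx y hy _ _ z hz
          exact ⟨hx.1.trans hz.1, hz.2.trans hy.2⟩)
      have h2 : volume.real (Set.Icc (-1 : ℝ) 1) = 2 := by
        rw [Real.volume_real_Icc_of_le (by norm_num)]
        norm_num
      rw [h2] at h1
      simpa using h1
    -- covering
    have hsub : ∀ e ∈ EE k m N h, ∃ s, e ∈ T s := by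
      intro e he
      have h1 := mem_EE.1 he
      have m1 : iu e.1 e.2.1 ∈ ind k m N n := iu_mem h1.1.1 h1.1.2.1
      have m2 : iv e.2.2 ∈ ind k m N n := iv_mem h1.1.2.2
      obtain ⟨s, hs⟩ := hcov _ (mem_image_of_mem p m1) _ (mem_image_of_mem p m2) (by
        intro heq
        have := hinj m1 m2 heq
        simp [iu, iv] at this)
      exact ⟨s, mem_filter.2 ⟨he, hs⟩⟩
    have hw : ∀ e : ℕ × ℕ × ℕ, 0 ≤ 1 / (m * h e.1) := by
      intro e
      have := hh e.1
      positivity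
    calc ∑ e ∈ EE k m N h, 1 / (m * h e.1)
        ≤ ∑ e ∈ EE k m N h, ∑ s, (if e ∈ T s then 1 / (m * h e.1) else 0) := by
          apply Finset.sum_le_sum
          intro e he
          obtain ⟨s, hs⟩ := hsub e he
          have h1 : (if e ∈ T s then 1 / (m * h e.1) else 0) ≤
              ∑ s, (if e ∈ T s then 1 / (m * h e.1) else 0) :=
            Finset.single_le_sum (f := fun s => if e ∈ T s then 1 / (m * h e.1) else 0)
              (fun s _ => by
                split_ifs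
                · exact hw e
                · exact le_rfl) (mem_univ s)
          rwa [if_pos hs] at h1
      _ = ∑ s, ∑ e ∈ EE k m N h, (if e ∈ T s then 1 / (m * h e.1) else 0) := Finset.sum_comm
      _ ≤ ∑ s, ∑ e ∈ T s, 1 / (m * h e.1) := by
          apply Finset.sum_le_sum
          intro s _
          rw [← Finset.sum_filter]
          apply Finset.sum_le_sum_of_subset_of_nonneg
          · intro e he
            exact (mem_filter.1 he).2
          · intro e _ _
            exact hw e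
      _ ≤ ∑ _s : Fin M, D * (2 + k * η' + η * k * k) := Finset.sum_le_sum (fun s _ => hone s)
      _ = M * (D * (2 + k * η' + η * k * k)) := by
          rw [Finset.sum_const, Finset.card_univ, Fintype.card_fin, nsmul_eq_mul]

end Pool.Agent.KS6_69.PathGeo
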