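import Mathlib
import Pool.Agent.KS6_69.PathGeo

set_option autoImplicit false

open Finset MeasureTheory Filter Topology

namespace Pool.Agent.KS6_69.PathCount

open Pool.Agent.KS6_69.PathCore Pool.Agent.KS6_69.PathGeo

/-- the window widths -/
noncomputable def hw (K : ℕ) (i : ℕ) : ℝ := 1 / (K : ℝ) ^ (i + 1)

lemma hw_pos {K : ℕ} (hK : 0 < K) (i : ℕ) : 0 < hw K i := by
  have : (0 : ℝ) < K := by exact_mod_cast hK
  unfold hw
  positivity

lemma hw_anti {K : ℕ} (hK : 0 < K) : Antitone (hw K) := by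
  intro i j hij
  have h1 : (1 : ℝ) ≤ K := by exact_mod_cast hK
  unfold hw
  exact one_div_le_one_div_of_le (by positivity) (pow_le_pow_right₀ h1 (by omega))

lemma hw_mul {K k q i : ℕ} (hK : 0 < K) (hi : i < k) :
    ((K ^ k * q : ℕ) : ℝ) * hw K i = ((K ^ (k - 1 - i) * q : ℕ) : ℝ) := by
  have h1 : (K : ℝ) ≠ 0 := by exact_mod_cast hK.ne'
  have h2 : k = (k - 1 - i) + (i + 1) := by omega
  unfold hw
  push_cast
  conv_lhs => rw [h2]
  rw [pow_add]
  field_simp

/-- Total weight of the edges. -/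
lemma count (k K q L : ℕ) (hK : 8 ≤ K) (hq : 0 < q) (hL : 0 < L) :
    (3 / 2 : ℝ) * k * ((L * (K ^ k * q) : ℕ) : ℝ) ≤
      ∑ e ∈ EE k (K ^ k * q) (L * (K ^ k * q)) (hw K),
        1 / (((K ^ k * q : ℕ) : ℝ) * hw K e.1) := by
  classical
  have hK0 : 0 < K := by omega
  set m := K ^ k * q with hm
  have hmpos : 0 < m := by positivity
  have hm' : (0 : ℝ) < m := by exact_mod_cast hmpos
  have hL' : (0 : ℝ) < L := by exact_mod_cast hL
  let H : ℕ → ℕ := fun i => K ^ (k - 1 - i) * q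
  have hH : ∀ i < k, (m : ℝ) * hw K i = (H i : ℝ) := fun i hi => hw_mul hK0 hi
  have hHpos : ∀ i, 0 < H i := fun i => by positivity
  have hHm : ∀ i < k, 8 * H i ≤ m := by
    intro i hi
    have h1 : K * K ^ (k - 1 - i) ≤ K ^ k := by
      rw [← pow_succ']
      exact Nat.pow_le_pow_right hK0 (by omega)
    calc 8 * H i ≤ K * (K ^ (k - 1 - i) * q) := Nat.mul_le_mul_right _ hK
      _ = (K * K ^ (k - 1 - i)) * q := by ring
      _ ≤ K ^ k * q := Nat.mul_le_mul_right _ h1
  let G : Finset ((_ : ℕ) × ℕ × ℕ) :=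
    (range k).sigma (fun i => Ico (H i) (m - H i) ×ˢ range (2 * L * H i))
  let φ : ((_ : ℕ) × ℕ × ℕ) → ℕ × ℕ × ℕ := fun x => (x.1, x.2.1, L * (x.2.1 - H x.1) + x.2.2)
  have hφ : Set.InjOn φ G := by
    rintro ⟨i, a, c⟩ _ ⟨i', a', c'⟩ _ heq
    simp only [φ, Prod.mk.injEq] at heq
    obtain ⟨rfl, rfl, h3⟩ := heq
    have : c = c' := by omega
    subst this
    rfl
  have hsub : G.image φ ⊆ EE k m (L * m) (hw K) := by
    intro e he
    obtain ⟨⟨i, a, c⟩, hx, rfl⟩ := mem_image.1 he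
    simp only [G, mem_sigma, mem_product, mem_range, mem_Ico] at hx
    obtain ⟨hi, ⟨ha1, ha2⟩, hc⟩ := hx
    rw [mem_EE]
    simp only [φ]
    have h8 := hHm i hi
    refine ⟨⟨hi, by omega, ?_⟩, ?_⟩
    · have h1 : a - H i + 2 * H i + 1 ≤ m := by omega
      have h2 : L * (a - H i + 2 * H i + 1) ≤ L * m := Nat.mul_le_mul_left _ h1
      have h3 : L * (a - H i + 2 * H i + 1) = L * (a - H i) + 2 * L * H i + L := by ring
      omega
    · have h1 := hH i hi
      have h2 : hw K i = (H i : ℝ) / m := by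
        rw [eq_div_iff hm'.ne', mul_comm]
        exact h1
      rw [h2]
      have h3 : (a : ℝ) / m - ((L * (a - H i) + c : ℕ) : ℝ) / ((L * m : ℕ) : ℝ) =
          ((L : ℝ) * H i - c) / (L * m) := by
        push_cast [Nat.cast_sub ha1]
        field_simp
        ring
      rw [h3, abs_le, ← neg_div]
      have hc' : (c : ℝ) < 2 * L * H i := by exact_mod_cast hc
      have hc0 : (0 : ℝ) ≤ c := Nat.cast_nonneg _
      have hLm : (0 : ℝ) < L * m := by positivity
      constructor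
      · rw [div_le_div_iff₀ hm' hLm]
        nlinarith
      · rw [div_le_div_iff₀ hLm hm']
        nlinarith
  have hw0 : ∀ e : ℕ × ℕ × ℕ, 0 ≤ 1 / ((m : ℝ) * hw K e.1) := by
    intro e
    have := hw_pos hK0 e.1
    positivity
  have h1 : ∑ e ∈ G.image φ, 1 / ((m : ℝ) * hw K e.1) ≤
      ∑ e ∈ EE k m (L * m) (hw K), 1 / ((m : ℝ) * hw K e.1) :=
    Finset.sum_le_sum_of_subset_of_nonneg hsub (fun e _ _ => hw0 e)
  rw [Finset.sum_image hφ] at h1
  refine le_trans ?_ h1
  simp only [G, φ]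
  rw [Finset.sum_sigma]
  have h2 : ∀ i ∈ range k, (3 / 2 : ℝ) * ((L * m : ℕ) : ℝ) ≤
      ∑ _x ∈ Ico (H i) (m - H i) ×ˢ range (2 * L * H i), 1 / ((m : ℝ) * hw K i) := by
    intro i hi
    rw [mem_range] at hi
    rw [Finset.sum_const, card_product, Nat.card_Ico, card_range, nsmul_eq_mul, hH i hi]
    have h8 := hHm i hi
    have hHi : (0 : ℝ) < H i := by exact_mod_cast hHpos i
    have h3 : ((m - H i - H i : ℕ) : ℝ) = m - 2 * H i := by
      rw [Nat.cast_sub (by omega), Nat.cast_sub (by omega)]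
      ring
    have h4 : (8 : ℝ) * H i ≤ m := by exact_mod_cast h8
    push_cast [h3]
    have h5 : ((m : ℝ) - 2 * H i) * (2 * L * H i) * (1 / (H i)) = 2 * L * (m - 2 * H i) := by
      field_simp
    rw [h5]
    nlinarith
  calc (3 / 2 : ℝ) * k * ((L * m : ℕ) : ℝ) = ∑ _i ∈ range k, (3 / 2 : ℝ) * ((L * m : ℕ) : ℝ) := by
        rw [Finset.sum_const, card_range, nsmul_eq_mul]
        ring
    _ ≤ _ := Finset.sum_le_sum h2

/-- **Explicit form.** -/
theorem explicit (k n : ℕ) (hk : 1 ≤ k) (hn : 8 * k ^ 3 * (8 * k ^ 2) ^ k ≤ n) :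
    ∃ A : Finset Pt, A.card = n ∧
      (∀ a ∈ A, ∀ b ∈ A, ∀ c ∈ A, a ≠ b → a ≠ c → b ≠ c → ¬ Collinear ℝ {a, b, c}) ∧
      ∀ (D M : ℕ) (R : Fin M → Pt → Pt → Prop), (∀ s, Pl D (R s)) →
        (∀ a ∈ A, ∀ b ∈ A, a ≠ b → ∃ s, R s a b) → k * n ≤ 5 * D * M := by
  set K := 8 * k ^ 2 with hK
  have hk2 : 1 ≤ k ^ 2 := Nat.one_le_pow _ _ hk
  have hK8 : 8 ≤ K := by omega
  have hKpos : 0 < K := by omega
  set W := 2 * k * K ^ k with hW
  have hWpos : 0 < W := by positivity
  set q := n / W with hq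
  have hq4 : 4 * k ^ 2 ≤ q := by
    rw [hq, Nat.le_div_iff_mul_le hWpos]
    calc 4 * k ^ 2 * W = 8 * k ^ 3 * K ^ k := by rw [hW]; ring
      _ ≤ n := hn
  have hqpos : 0 < q := by omega
  have hqW : W * q ≤ n := Nat.mul_div_le n W
  have hqW2 : n < W * (q + 1) := Nat.lt_mul_div_succ n hWpos
  set m := K ^ k * q with hm
  have hmpos : 0 < m := by positivity
  have hm' : (0 : ℝ) < m := by exact_mod_cast hmpos
  have hq' : (0 : ℝ) < q := by exact_mod_cast hqpos
  have hk' : (1 : ℝ) ≤ k := by exact_mod_cast hk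
  have hk0 : (0 : ℝ) < k := by linarith
  have hK' : (K : ℝ) = 8 * (k : ℝ) ^ 2 := by rw [hK]; push_cast; ring
  have hKp : (0 : ℝ) < K := by exact_mod_cast hKpos
  have hq4' : 4 * (k : ℝ) ^ 2 ≤ q := by exact_mod_cast hq4
  have hη : ∀ i < k, 1 / ((m : ℝ) * hw K i) ≤ 1 / q := by
    intro i hi
    rw [hw_mul hKpos hi]
    apply one_div_le_one_div_of_le hq'
    have : 1 * q ≤ K ^ (k - 1 - i) * q := Nat.mul_le_mul_right _ (Nat.one_le_pow _ _ hKpos)
    rw [one_mul] at this
    exact_mod_cast this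
  have hη' : ∀ i, i + 1 < k →
      (2 * hw K (i + 1) * ((k * m : ℕ) : ℝ) + 1) / ((m : ℝ) * hw K i) ≤ 2 * k / K + 1 / q := by
    intro i hi
    have h1 := hη i (by omega)
    have h2 := hw_pos hKpos i
    have h3 : hw K (i + 1) = hw K i / K := by
      unfold hw
      rw [pow_succ (K : ℝ) (i + 1)]
      field_simp
    rw [add_div, h3]
    have h4 : 2 * (hw K i / K) * ((k * m : ℕ) : ℝ) / ((m : ℝ) * hw K i) = 2 * k / K := by
      push_cast
      field_simp
    rw [h4]
    linarith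
  obtain ⟨A, hA1, hA2, hA3⟩ := conf k m (k * m) n (hw K) hmpos (by positivity)
    (hw_pos hKpos) (hw_anti hKpos) (by
      have : k * m + k * m = W * q := by rw [hW, hm]; ring
      omega) (1 / q) (2 * k / K + 1 / q) (by positivity) (by positivity) hη hη'
  refine ⟨A, hA1, hA2, fun D M R hR hcov => ?_⟩
  have h1 := hA3 D M R hR hcov
  have h2 := count k K q k hK8 hqpos hk
  have h3 := h2.trans h1
  have hb : 2 + (k : ℝ) * (2 * k / K + 1 / q) + 1 / q * k * k ≤ 3 := by
    have e1 : (k : ℝ) * (2 * k / K) = 1 / 4 := by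
      rw [hK']
      field_simp
      norm_num
    have e2 : (k : ℝ) * (1 / q) ≤ 1 / 4 := by
      rw [mul_one_div, div_le_iff₀ hq']
      nlinarith
    have e3 : 1 / (q : ℝ) * k * k ≤ 1 / 4 := by
      have : 1 / (q : ℝ) * k * k = k ^ 2 / q := by ring
      rw [this, div_le_iff₀ hq']
      linarith
    rw [mul_add, e1]
    linarith
  have h4 : (3 / 2 : ℝ) * k * ((k * m : ℕ) : ℝ) ≤ M * (D * 3) := by
    refine h3.trans ?_
    apply mul_le_mul_of_nonneg_left _ (Nat.cast_nonneg _)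
    exact mul_le_mul_of_nonneg_left hb (Nat.cast_nonneg _)
  have h5 : (k : ℝ) * ((k * m : ℕ) : ℝ) ≤ 2 * (M * D) := by linarith
  have h6 : k * (k * m) ≤ 2 * (M * D) := by exact_mod_cast h5
  -- pass to `n`
  have h7 : W * q = 2 * (k * m) := by rw [hW, hm]; ring
  have h8 : 4 * n ≤ 5 * (W * q) := by
    have : 4 * W ≤ W * q := by
      calc 4 * W = W * 4 := by ring
        _ ≤ W * q := Nat.mul_le_mul_left _ (by omega)
    have h9 : W * (q + 1) = W * q + W := by ring
    omega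
  have h10 : 4 * (k * n) ≤ 5 * (2 * (k * (k * m))) := by
    calc 4 * (k * n) = k * (4 * n) := by ring
      _ ≤ k * (5 * (W * q)) := Nat.mul_le_mul_left _ h8
      _ = 5 * (2 * (k * (k * m))) := by rw [h7]; ring
  have h11 : 5 * D * M = 5 * (M * D) := by ring
  rw [h11]
  omega

/-- The parameter for the asymptotic form. -/
lemma asymp : ∀ᶠ n : ℕ in atTop, ∃ k : ℕ, 1 ≤ k ∧ 8 * k ^ 3 * (8 * k ^ 2) ^ k ≤ n ∧
    Real.log n / (5 * Real.log (Real.log n)) ≤ k := by
  have hL : Tendsto (fun n : ℕ => Real.log n) atTop atTop :=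
    Real.tendsto_log_atTop.comp tendsto_natCast_atTop_atTop
  have hLL : Tendsto (fun n : ℕ => Real.log (Real.log n)) atTop atTop :=
    Real.tendsto_log_atTop.comp hL
  have hlo : ∀ᶠ x : ℝ in atTop, ‖Real.log x‖ ≤ (1 / 80) * ‖x‖ :=
    (Real.isLittleO_log_id_atTop.bound (by norm_num : (0 : ℝ) < 1 / 80))
  filter_upwards [hL.eventually_ge_atTop 1000, hLL.eventually_ge_atTop 5, hL.eventually hlo,
    eventually_ge_atTop 1] with n h1 h2 h3 hn1
  set x := Real.log n with hx
  set y := Real.log x with hy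
  have hx0 : (0 : ℝ) < x := by linarith
  have hy0 : (0 : ℝ) < y := by linarith
  rw [Real.norm_of_nonneg hy0.le, Real.norm_of_nonneg hx0.le] at h3
  set k := ⌊x / (4 * y)⌋₊ with hk
  have hz : 20 ≤ x / (4 * y) := by
    rw [le_div_iff₀ (by positivity)]
    linarith
  have hkle : (k : ℝ) ≤ x / (4 * y) := Nat.floor_le (by positivity)
  have hkgt : x / (4 * y) < k + 1 := Nat.lt_floor_add_one _
  have hk19 : (19 : ℝ) < k := by linarith
  have hk1 : 1 ≤ k := by
    have : (1 : ℝ) ≤ k := by linarith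
    exact_mod_cast this
  refine ⟨k, hk1, ?_, ?_⟩
  · have hkx : (k : ℝ) ≤ x := by
      refine hkle.trans ?_
      rw [div_le_iff₀ (by positivity)]
      nlinarith
    have hk0 : (0 : ℝ) < k := by linarith
    have hlogk : Real.log k ≤ y := Real.log_le_log hk0 hkx
    have hlogk0 : 0 ≤ Real.log k := Real.log_nonneg (by linarith)
    have hl8 : Real.log 8 ≤ 3 := by
      have e1 : Real.log 8 = 3 * Real.log 2 := by
        rw [show (8 : ℝ) = 2 ^ 3 by norm_num, Real.log_pow]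
        norm_num
      have := Real.log_two_lt_d9
      rw [e1]
      linarith
    have hfin : Real.log (8 * (k : ℝ) ^ 3 * (8 * (k : ℝ) ^ 2) ^ k) ≤ x := by
      rw [Real.log_mul (by positivity) (by positivity), Real.log_mul (by positivity) (by positivity),
        Real.log_pow, Real.log_pow, Real.log_mul (by positivity) (by positivity), Real.log_pow]
      push_cast
      have e1 : (k : ℝ) * (4 * y) ≤ x := by
        rw [← le_div_iff₀ (by positivity)]
        exact hkle
      have e2 : (k : ℝ) * (Real.log 8 + 2 * Real.log k) ≤ k * (3 + 2 * y) :=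
        mul_le_mul_of_nonneg_left (by linarith) hk0.le
      have e3 : (k : ℝ) * 3 ≤ k * y * (3 / 5) := by nlinarith
      nlinarith
    have hpos : (0 : ℝ) < 8 * (k : ℝ) ^ 3 * (8 * (k : ℝ) ^ 2) ^ k := by positivity
    have hn0 : (0 : ℝ) < n := by exact_mod_cast hn1
    have := (Real.log_le_log_iff hpos hn0).1 hfin
    exact_mod_cast this
  · have e1 : x / (5 * y) = x / (4 * y) * (4 / 5) := by
      field_simp
    rw [e1]
    linarith

end Pool.Agent.KS6_69.PathCount
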