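import Mathlib

set_option autoImplicit false

/-!
# Blow-ups and disjoint copies of graphs without quasiregular subgraphs
-/

namespace Pool.Agent.KS6_69.QR

open Finset

/-- Every nonempty subgraph of `G` of minimum degree larger than `k` has maximum degree
larger than `Δ`. -/
def Good (k Δ : ℕ) {V : Type*} (G : SimpleGraph V) : Prop :=
  ∀ H : G.Subgraph, H.verts.Nonempty → (∀ v ∈ H.verts, k < (H.neighborSet v).ncard) →
    ∃ v ∈ H.verts, Δ < (H.neighborSet v).ncard

/-- `m` disjoint copies of the `s`-blow-up of `G` and `r` isolated vertices -/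
def blow {V : Type*} (G : SimpleGraph V) (m s r : ℕ) :
    SimpleGraph ((Fin m × V × Fin s) ⊕ Fin r) where
  Adj u v := ∃ i x a y b, u = Sum.inl (i, x, a) ∧ v = Sum.inl (i, y, b) ∧ G.Adj x y
  symm := by
    constructor
    rintro u v ⟨i, x, a, y, b, hu, hv, h⟩
    exact ⟨i, y, b, x, a, hv, hu, h.symm⟩
  loopless := by
    constructor
    rintro u ⟨i, x, a, y, b, hu, hv, h⟩
    rw [hu] at hv
    simp only [Sum.inl.injEq, Prod.mk.injEq] at hv
    exact G.ne_of_adj h hv.2.1

lemma blow_adj_inl {V : Type*} (G : SimpleGraph V) (m s r : ℕ) (i : Fin m) (x : V) (a : Fin s)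
    (w : (Fin m × V × Fin s) ⊕ Fin r) (h : (blow G m s r).Adj (Sum.inl (i, x, a)) w) :
    ∃ y b, w = Sum.inl (i, y, b) ∧ G.Adj x y := by
  obtain ⟨i', x', a', y, b, hu, hv, h⟩ := h
  simp only [Sum.inl.injEq, Prod.mk.injEq] at hu
  obtain ⟨rfl, rfl, rfl⟩ := hu
  exact ⟨y, b, hv, h⟩

open Classical in
lemma blow_good {V : Type*} [Finite V] (G : SimpleGraph V) (m s r k Δ : ℕ) (hs : 1 ≤ s)
    (hk : 2 * s ≤ k) (hG : Good 2 (s * Δ) G) : Good k Δ (blow G m s r) := by
  intro H hne hdeg
  by_contra hcon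
  push Not at hcon
  have := Fintype.ofFinite V
  obtain ⟨v, hv⟩ := hne
  have hv1 : ∃ i x a, v = Sum.inl (i, x, a) := by
    have h := hdeg v hv
    have hne : (H.neighborSet v).Nonempty := by
      apply Set.nonempty_of_ncard_ne_zero; omega
    obtain ⟨w, hw⟩ := hne
    obtain ⟨i, x, a, y, b, hu, hv, h⟩ := H.adj_sub hw
    exact ⟨i, x, a, hu⟩
  obtain ⟨i, x0, a0, rfl⟩ := hv1
  let H0 : G.Subgraph :=
    { verts := {x | ∃ a, Sum.inl (i, x, a) ∈ H.verts}
      Adj := fun x y => ∃ a b, H.Adj (Sum.inl (i, x, a)) (Sum.inl (i, y, b))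
      adj_sub := by
        rintro x y ⟨a, b, h⟩
        obtain ⟨y', b', h1, h2⟩ := blow_adj_inl G m s r i x a _ (H.adj_sub h)
        simp only [Sum.inl.injEq, Prod.mk.injEq] at h1
        rw [h1.2.1]; exact h2
      edge_vert := by
        rintro x y ⟨a, b, h⟩
        exact ⟨a, H.edge_vert h⟩
      symm := by
        constructor
        rintro x y ⟨a, b, h⟩
        exact ⟨b, a, h.symm⟩ }
  obtain ⟨x, hx, hlt⟩ := hG H0 ⟨x0, a0, hv⟩ (by
    rintro x ⟨a, ha⟩
    have h1 := hdeg _ ha
    have hsub : H.neighborSet (Sum.inl (i, x, a)) ⊆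
        (fun p : V × Fin s => (Sum.inl (i, p.1, p.2) : (Fin m × V × Fin s) ⊕ Fin r)) ''
          ((H0.neighborSet x) ×ˢ (Set.univ : Set (Fin s))) := by
      intro w hw
      obtain ⟨y, b, rfl, _⟩ := blow_adj_inl G m s r i x a _ (H.adj_sub hw)
      exact ⟨(y, b), ⟨⟨a, b, hw⟩, Set.mem_univ _⟩, rfl⟩
    have h2 := (Set.ncard_le_ncard hsub (Set.toFinite _)).trans (Set.ncard_image_le (Set.toFinite _))
    rw [Set.ncard_prod, Set.ncard_univ, Nat.card_fin] at h2
    by_contra h3
    push Not at h3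
    have h4 : (H0.neighborSet x).ncard * s ≤ 2 * s := Nat.mul_le_mul_right s h3
    omega)
  have hsub : H0.neighborSet x ⊆ ⋃ a : Fin s,
      {y | ∃ b, H.Adj (Sum.inl (i, x, a)) (Sum.inl (i, y, b))} := by
    rintro y ⟨a, b, h⟩
    exact Set.mem_iUnion.mpr ⟨a, b, h⟩
  have hle : ∀ a : Fin s, {y | ∃ b, H.Adj (Sum.inl (i, x, a)) (Sum.inl (i, y, b))}.ncard ≤ Δ := by
    intro a
    by_cases ha : Sum.inl (i, x, a) ∈ H.verts
    · have h1 := hcon _ ha
      refine le_trans ?_ h1
      let g : (Fin m × V × Fin s) ⊕ Fin r → V := fun w => Sum.elim (fun p => p.2.1) (fun _ => x) w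
      have : {y | ∃ b, H.Adj (Sum.inl (i, x, a)) (Sum.inl (i, y, b))} ⊆
          g '' (H.neighborSet (Sum.inl (i, x, a))) := by
        rintro y ⟨b, h⟩
        exact ⟨Sum.inl (i, y, b), h, rfl⟩
      exact (Set.ncard_le_ncard this (Set.toFinite _)).trans (Set.ncard_image_le (Set.toFinite _))
    · have : {y | ∃ b, H.Adj (Sum.inl (i, x, a)) (Sum.inl (i, y, b))} = ∅ := by
        rw [Set.eq_empty_iff_forall_notMem]
        rintro y ⟨b, h⟩
        exact ha (H.edge_vert h)
      rw [this]; simp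
  have h5 : (H0.neighborSet x).ncard ≤ s * Δ := by
    refine (Set.ncard_le_ncard hsub (Set.toFinite _)).trans ?_
    have h6 := Set.ncard_iUnion_le_of_fintype (fun a : Fin s =>
      {y | ∃ b, H.Adj (Sum.inl (i, x, a)) (Sum.inl (i, y, b))})
    refine h6.trans ?_
    calc ∑ a : Fin s, {y | ∃ b, H.Adj (Sum.inl (i, x, a)) (Sum.inl (i, y, b))}.ncard
        ≤ ∑ a : Fin s, Δ := sum_le_sum (fun a _ => hle a)
      _ = s * Δ := by simp
  omega

lemma blow_edges {V : Type*} [Finite V] (G : SimpleGraph V) (m s r : ℕ) :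
    m * (s * s) * G.edgeSet.ncard ≤ (blow G m s r).edgeSet.ncard := by
  classical
  have := Fintype.ofFinite V
  let F : Fin m × Fin s × Fin s × G.Dart → (blow G m s r).Dart := fun p =>
    ⟨(Sum.inl (p.1, p.2.2.2.fst, p.2.1), Sum.inl (p.1, p.2.2.2.snd, p.2.2.1)),
      ⟨p.1, _, _, _, _, rfl, rfl, p.2.2.2.adj⟩⟩
  have hF : Function.Injective F := by
    rintro ⟨i, a, b, d⟩ ⟨i', a', b', d'⟩ h
    have h1 := congrArg (fun q : (blow G m s r).Dart => q.toProd) h
    simp only [F, Prod.mk.injEq, Sum.inl.injEq] at h1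
    obtain ⟨⟨rfl, h2, rfl⟩, _, h3, rfl⟩ := h1
    have : d = d' := by
      apply SimpleGraph.Dart.ext
      exact Prod.ext h2 h3
    rw [this]
  have h1 := Fintype.card_le_of_injective F hF
  rw [Fintype.card_prod, Fintype.card_prod, Fintype.card_prod, Fintype.card_fin, Fintype.card_fin,
    SimpleGraph.dart_card_eq_twice_card_edges, SimpleGraph.dart_card_eq_twice_card_edges] at h1
  have e1 : G.edgeSet.ncard = #G.edgeFinset := by
    rw [Set.ncard_eq_toFinset_card']
    rfl
  have e2 : (blow G m s r).edgeSet.ncard = #(blow G m s r).edgeFinset := by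
    rw [Set.ncard_eq_toFinset_card']
    rfl
  rw [e1, e2]
  have h2 : 2 * (m * (s * s) * #G.edgeFinset) ≤ 2 * #(blow G m s r).edgeFinset := by
    calc 2 * (m * (s * s) * #G.edgeFinset) = m * (s * (s * (2 * #G.edgeFinset))) := by ring
      _ ≤ _ := h1
  omega

/-- transport along a bijection of the vertices -/
lemma good_iso {V W : Type*} [Finite V] (e : V ≃ W) (k Δ : ℕ) (G : SimpleGraph V)
    (hG : Good k Δ G) : Good k Δ (G.comap e.symm) ∧
      (G.comap e.symm).edgeSet.ncard = G.edgeSet.ncard := by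
  classical
  have iso : G.comap e.symm ≃g G := SimpleGraph.Iso.comap e.symm G
  constructor
  · intro H hne hdeg
    have hn : ∀ v, ((H.map iso.toHom).neighborSet (iso v)).ncard = (H.neighborSet v).ncard := by
      intro v
      have : (H.map iso.toHom).neighborSet (iso v) = iso '' (H.neighborSet v) := by
        ext w
        simp only [SimpleGraph.Subgraph.mem_neighborSet, SimpleGraph.Subgraph.map_adj,
          Relation.Map, Set.mem_image]
        constructor
        · rintro ⟨a, b, hab, h1, h2⟩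
          have h3 : a = v := iso.injective h1
          subst h3
          exact ⟨b, hab, h2⟩
        · rintro ⟨b, hb, rfl⟩
          exact ⟨v, b, hb, rfl, rfl⟩
      rw [this, Set.ncard_image_of_injective _ iso.injective]
    obtain ⟨v, hv, hlt⟩ := hG (H.map iso.toHom) (by
      obtain ⟨v, hv⟩ := hne
      exact ⟨iso v, v, hv, rfl⟩) (by
      rintro _ ⟨v, hv, rfl⟩
      have := hdeg v hv
      rw [← hn] at this
      exact this)
    obtain ⟨u, hu, rfl⟩ := hv
    refine ⟨u, hu, ?_⟩
    rw [← hn]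
    exact hlt
  · exact Nat.card_congr iso.mapEdgeSet

end Pool.Agent.KS6_69.QR
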