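import Mathlib

set_option autoImplicit false

/-!
# Bipartite graphs with levels of rapidly decreasing sizes

This file is taken over from the library module
`R_pool_sql_team_668148b0/Results/MP_78fef3_co/NoQuasiregular`; the last theorem is stated with an
explicit bound for the number of vertices.

Construction: `D = 64 (Δ + 1) t`, `n = D ^ (13 ^ t)`, and `t` levels of sizes
`N_i = D ^ (13 ^ t - 13 ^ i)`, `i < t`.  Each of the `n` left vertices `x` is joined to the vertex
`f i x` of level `i`, for functions `f i` with few collisions on every small set `A`: if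
`|A| D ^ (12 * 13 ^ (s-1)) ≤ n` then the total number of collisions in the first `s` levels is less
than `(5/4) |A|`.  Such functions exist by a union bound.  A nonempty subgraph with all degrees in
`[3, Δ]` would use at least `(15/8) |A|` edges in these levels, hence would have at least
`(5/4) |A|` collisions.
-/

namespace Pool.Agent.KS6_69.QR

open Finset

lemma card_image_eq_le {n N : ℕ} (A : Finset (Fin n)) (S : Finset (Fin N)) :
    ((univ : Finset (Fin n → Fin N)).filter (fun g => A.image g = S)).card ≤ S.card ^ A.card * N ^ (n - A.card) := by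
  classical
  have h1 : (univ : Finset (Fin n → Fin N)).filter (fun g => A.image g = S) ⊆
      Fintype.piFinset (fun x => if x ∈ A then S else univ) := by
    intro g hg
    rw [mem_filter] at hg
    rw [Fintype.mem_piFinset]
    intro x
    by_cases hx : x ∈ A
    · rw [if_pos hx, ← hg.2]; exact mem_image_of_mem g hx
    · rw [if_neg hx]; exact mem_univ _
  refine (card_le_card h1).trans ?_
  rw [Fintype.card_piFinset]
  have h2 : ∀ x : Fin n, (if x ∈ A then S else univ).card = if x ∈ A then S.card else N := by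
    intro x; split_ifs <;> simp
  rw [prod_congr rfl (fun x _ => h2 x), prod_ite]
  simp only [prod_const]
  have e1 : (univ.filter (fun x => x ∈ A)) = A := by ext x; simp
  have e2 : (univ.filter (fun x => x ∉ A)).card = n - A.card := by
    have : (univ.filter (fun x => x ∉ A)) = Aᶜ := by ext x; simp
    rw [this, card_compl, Fintype.card_fin]
  rw [e1, e2]

lemma level_term (n N a b : ℕ) (ha : 1 ≤ a) (han : a ≤ n) (hba : b ≤ a) (hN : 0 < N) (z : ℝ) (hz : 0 ≤ z)
    (hza : z * a ≤ N) :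
    (N.choose b : ℝ) * (z ^ (a - b) * ((b:ℝ) ^ a * (N:ℝ) ^ (n - a))) ≤ (N:ℝ)^n * 3 ^ b := by
  have ha' : (0:ℝ) < a := by exact_mod_cast ha
  have hN' : (0:ℝ) < N := by exact_mod_cast hN
  have h1 : (N.choose b : ℝ) ≤ (N:ℝ)^b / (b.factorial) := Nat.choose_le_pow_div b N
  have h2 : (z * a) ^ (a - b) ≤ (N:ℝ) ^ (a - b) := pow_le_pow_left₀ (by positivity) hza _
  have h3 : (b:ℝ) ^ a ≤ (b:ℝ)^b * (a:ℝ)^(a-b) := by
    have : (b:ℝ)^a = (b:ℝ)^b * (b:ℝ)^(a-b) := by rw [← pow_add]; congr 1; omega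
    rw [this]
    have : (b:ℝ) ≤ a := by exact_mod_cast hba
    gcongr
  have h4 : (b:ℝ)^b / (b.factorial) ≤ 3 ^ b := by
    have := Real.pow_div_factorial_le_exp (b:ℝ) (by positivity) b
    refine this.trans ?_
    have e : Real.exp b = (Real.exp 1)^b := by rw [← Real.exp_nat_mul]; simp
    rw [e]
    have := Real.exp_one_lt_d9
    apply pow_le_pow_left₀ (by positivity)
    linarith
  calc (N.choose b : ℝ) * (z ^ (a - b) * ((b:ℝ) ^ a * (N:ℝ) ^ (n - a)))
      ≤ ((N:ℝ)^b / (b.factorial)) * (z ^ (a - b) * (((b:ℝ)^b * (a:ℝ)^(a-b)) * (N:ℝ) ^ (n - a))) := by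
        gcongr
    _ = ((N:ℝ)^b * (N:ℝ)^(n-a)) * ((b:ℝ)^b / (b.factorial)) * (z * a)^(a-b) := by
        rw [mul_pow]; ring
    _ ≤ ((N:ℝ)^b * (N:ℝ)^(n-a)) * (3^b) * (N:ℝ)^(a-b) := by
        gcongr
    _ = ((N:ℝ)^b * (N:ℝ)^(n-a) * (N:ℝ)^(a-b)) * 3^b := by ring
    _ = (N:ℝ)^n * 3^b := by
        rw [← pow_add, ← pow_add]; congr 2; omega

lemma level_sum (n N a : ℕ) (A : Finset (Fin n)) (hA : A.card = a) (ha : 1 ≤ a) (hN : 0 < N) (z : ℝ) (hz : 0 ≤ z)
    (hza : z * a ≤ N) :
    ∑ g : Fin n → Fin N, z ^ (a - (A.image g).card) ≤ 6 ^ a * (N:ℝ)^n := by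
  classical
  have han : a ≤ n := by rw [← hA]; simpa using card_le_univ A
  rw [← sum_fiberwise_of_maps_to (s := (univ : Finset (Fin n → Fin N)))
    (t := (univ : Finset (Fin N)).powerset.filter (fun S => S.card ≤ a)) (g := fun g => A.image g)]
  · calc ∑ S ∈ (univ : Finset (Fin N)).powerset.filter (fun S => S.card ≤ a),
          ∑ g ∈ (univ : Finset (Fin n → Fin N)).filter (fun g => A.image g = S), z ^ (a - (A.image g).card)
        ≤ ∑ S ∈ (univ : Finset (Fin N)).powerset.filter (fun S => S.card ≤ a),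
          z ^ (a - S.card) * ((S.card : ℝ) ^ a * (N:ℝ) ^ (n - a)) := by
          apply sum_le_sum
          intro S _
          have : ∀ g ∈ (univ : Finset (Fin n → Fin N)).filter (fun g => A.image g = S), z ^ (a - (A.image g).card) = z ^ (a - S.card) := by
            intro g hg; rw [(mem_filter.mp hg).2]
          rw [sum_congr rfl this, sum_const, nsmul_eq_mul, mul_comm]
          apply mul_le_mul_of_nonneg_left _ (by positivity)
          have := card_image_eq_le A S
          rw [hA] at this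
          exact_mod_cast this
      _ = ∑ S ∈ (univ : Finset (Fin N)).powerset, if S.card ≤ a then
          z ^ (a - S.card) * ((S.card : ℝ) ^ a * (N:ℝ) ^ (n - a)) else 0 := by
          rw [sum_filter]
      _ = ∑ b ∈ range (N + 1), (N.choose b) • (if b ≤ a then
          z ^ (a - b) * ((b : ℝ) ^ a * (N:ℝ) ^ (n - a)) else 0) := by
          rw [sum_powerset_apply_card (fun b => if b ≤ a then
          z ^ (a - b) * ((b : ℝ) ^ a * (N:ℝ) ^ (n - a)) else 0)]
          simp
      _ ≤ ∑ b ∈ range (N+1), (if b ≤ a then (N:ℝ)^n * 3 ^ b else 0) := by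
          apply sum_le_sum
          intro b _
          split_ifs with h
          · rw [nsmul_eq_mul]; exact level_term n N a b ha han h hN z hz hza
          · simp
      _ ≤ ∑ b ∈ range (a+1), (N:ℝ)^n * 3 ^ b := by
          rw [← sum_filter]
          apply sum_le_sum_of_subset_of_nonneg
          · intro b hb; simp at hb ⊢; omega
          · intros; positivity
      _ = (N:ℝ)^n * ∑ b ∈ range (a+1), (3:ℝ)^b := by rw [mul_sum]
      _ ≤ (N:ℝ)^n * 6^a := by
          gcongr
          rw [geom_sum_eq (by norm_num)]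
          obtain ⟨m, rfl⟩ : ∃ m, a = m + 1 := ⟨a-1, by omega⟩
          have h1 : (3:ℝ)^(m+1+1) ≤ 9 * 6^m := by
            rw [pow_succ, pow_succ]
            have : (3:ℝ)^m ≤ 6^m := pow_le_pow_left₀ (by norm_num) (by norm_num) m
            linarith
          have h2 : (6:ℝ)^(m+1) = 6 * 6^m := by rw [pow_succ]; ring
          have h3 : (0:ℝ) < 6^m := by positivity
          rw [h2, div_le_iff₀ (by norm_num)]
          nlinarith
      _ = _ := by ring
  · intro g _
    rw [mem_filter, mem_powerset]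
    exact ⟨subset_univ _, by rw [← hA]; exact card_image_le⟩

/-- Markov-type count of the bad choices for one set `A` -/
lemma bad_count {t n : ℕ} (N : ℕ → ℕ) (hN : ∀ i, 0 < N i) (s r a : ℕ) (hs : s ≤ t)
    (A : Finset (Fin n)) (hA : A.card = a) (ha : 1 ≤ a)
    (z : ℝ) (hz : 1 ≤ z) (hza : ∀ i, i < s → z * a ≤ N i) :
    (((univ : Finset ((i : Fin t) → Fin n → Fin (N i))).filter
      (fun f => r ≤ ∑ i ∈ (univ : Finset (Fin t)).filter (fun i => i.val < s), (a - (A.image (f i)).card))).card : ℝ) * z ^ r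
      ≤ 6 ^ (s * a) * (Fintype.card ((i : Fin t) → Fin n → Fin (N i)) : ℝ) := by
  classical
  have hz0 : 0 ≤ z := by linarith
  let w : (i : Fin t) → (Fin n → Fin (N i)) → ℝ := fun i g => if i.val < s then z ^ (a - (A.image g).card) else 1
  have hw0 : ∀ i g, 0 ≤ w i g := by
    intro i g; simp only [w]; split_ifs <;> positivity
  have h1 : ∀ f : ((i : Fin t) → Fin n → Fin (N i)), ∏ i, w i (f i) =
      z ^ (∑ i ∈ (univ : Finset (Fin t)).filter (fun i => i.val < s), (a - (A.image (f i)).card)) := by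
    intro f
    rw [← prod_pow_eq_pow_sum, prod_filter]
  have h2 : ∑ f : ((i : Fin t) → Fin n → Fin (N i)), ∏ i, w i (f i) = ∏ i, ∑ g, w i g := by
    rw [Finset.prod_univ_sum, Fintype.piFinset_univ]
  have h3 : ∏ i, ∑ g, w i g ≤ ∏ i : Fin t, ((if i.val < s then (6:ℝ)^a else 1) * (N i : ℝ)^n) := by
    apply prod_le_prod
    · intro i _; exact sum_nonneg (fun g _ => hw0 i g)
    · intro i _
      by_cases hi : i.val < s
      · simp only [w, if_pos hi]
        exact level_sum n (N i) a A hA ha (hN i) z hz0 (hza i hi)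
      · simp only [w, if_neg hi]
        simp
  have h4 : ∏ i : Fin t, ((if i.val < s then (6:ℝ)^a else 1) * (N i : ℝ)^n)
      = 6 ^ (s * a) * (Fintype.card ((i : Fin t) → Fin n → Fin (N i)) : ℝ) := by
    rw [prod_mul_distrib]
    congr 1
    · rw [← prod_filter, prod_const, ← pow_mul, mul_comm]
      congr 2
      have : (univ : Finset (Fin t)).filter (fun i => i.val < s) = (univ : Finset (Fin s)).map (Fin.castLEEmb hs) := by
        ext i
        rw [mem_filter, mem_map]
        constructor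
        · intro h; exact ⟨⟨i.val, h.2⟩, mem_univ _, by ext; simp⟩
        · rintro ⟨j, _, rfl⟩; exact ⟨mem_univ _, by simp⟩
      rw [this, card_map, card_univ, Fintype.card_fin]
    · rw [Fintype.card_pi]
      push_cast
      apply prod_congr rfl
      intro i _
      rw [Fintype.card_fun, Fintype.card_fin, Fintype.card_fin]
      push_cast; rfl
  rw [← h4]
  refine le_trans ?_ h3
  rw [← h2]
  set Bad := (univ : Finset ((i : Fin t) → Fin n → Fin (N i))).filter
      (fun f => r ≤ ∑ i ∈ (univ : Finset (Fin t)).filter (fun i => i.val < s), (a - (A.image (f i)).card)) with hBad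
  calc (Bad.card : ℝ) * z ^ r = ∑ f ∈ Bad, z ^ r := by
        rw [sum_const, nsmul_eq_mul]
    _ ≤ ∑ f ∈ Bad, ∏ i, w i (f i) := by
        apply sum_le_sum
        intro f hf
        rw [h1]
        rw [hBad] at hf
        exact pow_le_pow_right₀ hz (mem_filter.mp hf).2
    _ ≤ _ := by
        apply sum_le_sum_of_subset_of_nonneg (filter_subset _ _)
        intro f _ _
        exact prod_nonneg (fun i _ => hw0 i (f i))

lemma key_bound (t s a n D' Ns r : ℕ) (ht : 1 ≤ t) (ha : 1 ≤ a) (hn : n = D' * Ns)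
    (hD : 81 * 1296 ^ s * (4 * t) ^ 4 ≤ D' ^ 7) (haD : a * D' ^ 12 ≤ n) (hD1 : 1 ≤ D') (hr : 5 * a ≤ 4 * r) :
    (n.choose a : ℝ) * 6 ^ (s * a) ≤ ((Ns:ℝ)/a)^r * (1/(4*t:ℝ))^a := by
  have ha' : (0:ℝ) < a := by exact_mod_cast ha
  have ht' : (0:ℝ) < t := by exact_mod_cast ht
  have hD' : (1:ℝ) ≤ D' := by exact_mod_cast hD1
  have hnr : (n:ℝ) = D' * Ns := by exact_mod_cast hn
  have haD' : (a:ℝ) * D' ^ 12 ≤ D' * Ns := by rw [← hnr]; exact_mod_cast haD
  set z : ℝ := (Ns:ℝ)/a with hz
  have hzD : (D':ℝ)^11 ≤ z := by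
    rw [hz, le_div_iff₀ ha']
    have h1 : (D':ℝ) * (D'^11 * a) ≤ D' * Ns := by
      calc (D':ℝ) * (D'^11 * a) = a * D'^12 := by ring
        _ ≤ _ := haD'
    exact le_of_mul_le_mul_left h1 (by linarith)
  have hz1 : 1 ≤ z := le_trans (one_le_pow₀ hD') hzD
  have hz0 : 0 < z := by linarith
  -- choose bound
  have hch : (n.choose a : ℝ) ≤ (3 * z * D')^a := by
    have h1 : (n.choose a : ℝ) ≤ (n:ℝ)^a / (a.factorial) := Nat.choose_le_pow_div a n
    have h2 : (a:ℝ)^a / (a.factorial) ≤ 3 ^ a := by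
      have := Real.pow_div_factorial_le_exp (a:ℝ) (by positivity) a
      refine this.trans ?_
      have e : Real.exp a = (Real.exp 1)^a := by rw [← Real.exp_nat_mul]; simp
      rw [e]
      have := Real.exp_one_lt_d9
      apply pow_le_pow_left₀ (by positivity)
      linarith
    have h3 : (n:ℝ) = z * a * D' := by rw [hnr, hz]; field_simp
    calc (n.choose a : ℝ) ≤ (n:ℝ)^a / (a.factorial) := h1
      _ = (z * D')^a * ((a:ℝ)^a / (a.factorial)) := by rw [h3]; ring
      _ ≤ (z * D')^a * 3^a := by gcongr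
      _ = (3 * z * D')^a := by rw [← mul_pow]; ring
  have h4 : ((n.choose a : ℝ) * 6 ^ (s * a))^4 ≤ (((z)^r * (1/(4*t:ℝ))^a))^4 := by
    have e1 : ((n.choose a : ℝ) * 6 ^ (s * a))^4 ≤ ((81 * 1296^s * D'^4) * z^4)^a := by
      calc ((n.choose a : ℝ) * 6 ^ (s * a))^4 ≤ ((3 * z * D')^a * 6 ^ (s * a))^4 := by gcongr
        _ = ((81 * 1296^s * D'^4) * z^4)^a := by
          rw [pow_mul, ← mul_pow, ← pow_mul, mul_comm a 4, pow_mul]
          congr 1
          have : (1296:ℝ)^s = (6^s)^4 := by rw [← pow_mul, mul_comm, pow_mul]; norm_num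
          rw [this]; ring
    have e2 : (81 * 1296^s * (D':ℝ)^4) * z^4 ≤ z^5 * (1/(4*t:ℝ))^4 := by
      have h5 : (81 * 1296^s * (4*t:ℝ)^4) ≤ (D':ℝ)^7 := by exact_mod_cast hD
      have h6 : 81 * 1296^s * (D':ℝ)^4 * (4*t:ℝ)^4 ≤ z := by
        calc 81 * 1296^s * (D':ℝ)^4 * (4*t:ℝ)^4 = (81 * 1296^s * (4*t:ℝ)^4) * D'^4 := by ring
          _ ≤ (D':ℝ)^7 * D'^4 := by gcongr
          _ = (D':ℝ)^11 := by ring
          _ ≤ z := hzD
      have h7 : (1/(4*t:ℝ))^4 = 1/(4*t:ℝ)^4 := by rw [div_pow, one_pow]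
      rw [h7, mul_one_div, le_div_iff₀ (by positivity)]
      calc 81 * 1296^s * (D':ℝ)^4 * z^4 * (4*t:ℝ)^4 = (81 * 1296^s * (D':ℝ)^4 * (4*t:ℝ)^4) * z^4 := by ring
        _ ≤ z * z^4 := by gcongr
        _ = z^5 := by ring
    calc ((n.choose a : ℝ) * 6 ^ (s * a))^4 ≤ ((81 * 1296^s * D'^4) * z^4)^a := e1
      _ ≤ (z^5 * (1/(4*t:ℝ))^4)^a := by gcongr
      _ = z^(5*a) * ((1/(4*t:ℝ))^a)^4 := by
          rw [mul_pow, ← pow_mul, ← pow_mul, ← pow_mul]; ring
      _ ≤ z^(4*r) * ((1/(4*t:ℝ))^a)^4 := by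
          gcongr
      _ = (((z)^r * (1/(4*t:ℝ))^a))^4 := by
          rw [mul_pow, ← pow_mul]; ring
  exact le_of_pow_le_pow_left₀ (by norm_num) (by positivity) h4

/-- the number `n` of vertices on the left -/
def nn (D t : ℕ) : ℕ := D ^ (13 ^ t)

/-- the sizes of the levels -/
def NN (D t i : ℕ) : ℕ := D ^ (13 ^ t - 13 ^ i)

lemma NN_pos (D t : ℕ) (hD : 1 ≤ D) (i : ℕ) : 0 < NN D t i := Nat.pow_pos (by omega)

lemma nn_eq (D t i : ℕ) (hi : i ≤ t) : nn D t = D ^ (13 ^ i) * NN D t i := by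
  unfold nn NN
  rw [← pow_add]
  congr 1
  have := Nat.pow_le_pow_right (show 0 < 13 by norm_num) hi
  omega

lemma lt_pow13 (s : ℕ) : s + 1 ≤ 13 ^ s := by
  have := Nat.lt_pow_self (n := s) (show 1 < 13 by norm_num)
  omega

lemma hD_cond (Δ t s : ℕ) (ht : 1 ≤ t) (hs : 1 ≤ s) :
    81 * 1296 ^ s * (4 * t) ^ 4 ≤ ((64 * (Δ + 1) * t) ^ (13 ^ (s-1))) ^ 7 := by
  set D := 64 * (Δ + 1) * t with hD
  have hD64 : 64 * t ≤ D := by rw [hD]; nlinarith
  have h1 : D ^ s ≤ D ^ (13 ^ (s-1)) := by
    apply Nat.pow_le_pow_right (by omega)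
    have := lt_pow13 (s-1)
    omega
  have h2 : 1296 ^ s ≤ (D ^ (13 ^ (s-1)))^2 := by
    calc 1296 ^ s ≤ (D^2)^s := by
          apply Nat.pow_le_pow_left
          nlinarith
      _ = (D^s)^2 := by rw [← pow_mul, ← pow_mul, mul_comm]
      _ ≤ _ := Nat.pow_le_pow_left h1 2
  have h3 : 64 * t ≤ D ^ (13 ^ (s-1)) := by
    calc 64 * t ≤ D := hD64
      _ = D ^ 1 := (pow_one D).symm
      _ ≤ D ^ s := Nat.pow_le_pow_right (by omega) hs
      _ ≤ _ := h1
  have h4 : (64 * t)^5 ≤ (D ^ (13 ^ (s-1)))^5 := Nat.pow_le_pow_left h3 5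
  have h5 : 81 * (4 * t)^4 ≤ (64 * t)^5 := by
    have e1 : 81 * (4 * t)^4 = 20736 * t^4 := by ring
    have e2 : (64 * t)^5 = 1073741824 * t^4 * t := by ring
    rw [e1, e2]
    nlinarith [pow_pos (show 0 < t by omega) 4]
  calc 81 * 1296 ^ s * (4 * t) ^ 4 = 1296 ^ s * (81 * (4*t)^4) := by ring
    _ ≤ (D ^ (13 ^ (s-1)))^2 * (D ^ (13 ^ (s-1)))^5 := Nat.mul_le_mul h2 (h5.trans h4)
    _ = _ := by ring

lemma exists_good (Δ t : ℕ) (ht : 1 ≤ t) :
    ∃ f : (i : Fin t) → Fin (nn (64 * (Δ + 1) * t) t) → Fin (NN (64 * (Δ + 1) * t) t i),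
      ∀ s, 1 ≤ s → s ≤ t → ∀ A : Finset (Fin (nn (64 * (Δ + 1) * t) t)), A.Nonempty →
        A.card * (64 * (Δ + 1) * t) ^ (12 * 13 ^ (s - 1)) ≤ nn (64 * (Δ + 1) * t) t →
        4 * ∑ i ∈ (univ : Finset (Fin t)).filter (fun i => i.val < s), (A.card - (A.image (f i)).card)
          < 5 * A.card := by
  classical
  set D := 64 * (Δ + 1) * t with hD
  have hD1 : 1 ≤ D := by rw [hD]; nlinarith
  by_contra hcon
  push Not at hcon
  set T : ℝ := (Fintype.card ((i : Fin t) → Fin (nn D t) → Fin (NN D t i)) : ℝ) with hT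
  have hTpos : 0 < T := by
    rw [hT]
    have : 0 < Fintype.card ((i : Fin t) → Fin (nn D t) → Fin (NN D t i)) := by
      rw [Fintype.card_pos_iff]
      exact ⟨fun i _ => ⟨0, NN_pos D t hD1 i⟩⟩
    exact_mod_cast this
  let Bad : ℕ → Finset (Fin (nn D t)) → Finset ((i : Fin t) → Fin (nn D t) → Fin (NN D t i)) :=
    fun s A => univ.filter (fun f => (5 * A.card + 3)/4 ≤ ∑ i ∈ (univ : Finset (Fin t)).filter (fun i => i.val < s), (A.card - (A.image (f i)).card))
  let Val : ℕ → Finset (Finset (Fin (nn D t))) :=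
    fun s => univ.powerset.filter (fun A => 1 ≤ A.card ∧ A.card * D ^ (12 * 13 ^ (s-1)) ≤ nn D t)
  have hcover : (univ : Finset ((i : Fin t) → Fin (nn D t) → Fin (NN D t i))) ⊆
      (Icc 1 t).biUnion (fun s => (Val s).biUnion (fun A => Bad s A)) := by
    intro f _
    obtain ⟨s, hs1, hst, A, hA, hAn, hle⟩ := hcon f
    rw [mem_biUnion]
    refine ⟨s, by rw [mem_Icc]; exact ⟨hs1, hst⟩, ?_⟩
    rw [mem_biUnion]
    refine ⟨A, ?_, ?_⟩
    · simp only [Val]
      rw [mem_filter]
      exact ⟨mem_powerset.mpr (subset_univ _), card_pos.mpr hA, hAn⟩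
    · simp only [Bad]
      rw [mem_filter]
      refine ⟨mem_univ _, ?_⟩
      omega
  have hbad : ∀ s ∈ Icc 1 t, ∀ A ∈ Val s, ((Bad s A).card : ℝ) ≤
      6 ^ (s * A.card) * T / ((NN D t (s-1) : ℝ)/A.card) ^ ((5 * A.card + 3)/4) := by
    intro s hs A hA
    rw [mem_Icc] at hs
    simp only [Val] at hA
    rw [mem_filter] at hA
    have ha : (0:ℝ) < A.card := by exact_mod_cast hA.2.1
    have hnneq := nn_eq D t (s-1) (by omega)
    have hz : 1 ≤ (NN D t (s-1) : ℝ)/A.card := by
      rw [le_div_iff₀ ha, one_mul]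
      have h1 : A.card * D ^ (12 * 13 ^ (s-1)) ≤ D ^ (13 ^ (s-1)) * NN D t (s-1) := by
        rw [← hnneq]; exact hA.2.2
      have h2 : D ^ (13 ^ (s-1)) ≤ D ^ (12 * 13 ^ (s-1)) := Nat.pow_le_pow_right (by omega) (by omega)
      have h3 : A.card * D ^ (13 ^ (s-1)) ≤ NN D t (s-1) * D ^ (13 ^ (s-1)) := by
        calc A.card * D ^ (13 ^ (s-1)) ≤ A.card * D ^ (12 * 13 ^ (s-1)) := Nat.mul_le_mul_left _ h2
          _ ≤ _ := h1
          _ = _ := mul_comm _ _
      have h4 := Nat.le_of_mul_le_mul_right h3 (Nat.pow_pos (by omega))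
      exact_mod_cast h4
    have hb := bad_count (t := t) (n := nn D t) (NN D t) (NN_pos D t hD1) s ((5 * A.card + 3)/4) A.card hs.2 A rfl hA.2.1
      ((NN D t (s-1) : ℝ)/A.card) hz (by
        intro i hi
        rw [div_mul_cancel₀ _ ha.ne']
        have : NN D t (s-1) ≤ NN D t i := by
          unfold NN
          apply Nat.pow_le_pow_right (by omega)
          have := Nat.pow_le_pow_right (show 0 < 13 by norm_num) (show i ≤ s-1 by omega)
          omega
        exact_mod_cast this)
    rw [le_div_iff₀ (by positivity)]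
    exact hb
  have hsum1 : ∀ s ∈ Icc 1 t, ∑ A ∈ Val s, ((Bad s A).card : ℝ) ≤ T * ((4/3) * (1/(4*t:ℝ))) := by
    intro s hs
    have hs' := mem_Icc.mp hs
    refine (sum_le_sum (hbad s hs)).trans ?_
    have ht' : (0:ℝ) < t := by exact_mod_cast ht
    calc ∑ A ∈ Val s, 6 ^ (s * A.card) * T / ((NN D t (s-1) : ℝ)/A.card) ^ ((5 * A.card + 3)/4)
        = ∑ A ∈ (univ : Finset (Fin (nn D t))).powerset, (fun a : ℕ => if (1 ≤ a ∧ a * D ^ (12 * 13 ^ (s-1)) ≤ nn D t) then
            6 ^ (s * a) * T / ((NN D t (s-1) : ℝ)/a) ^ ((5 * a + 3)/4) else 0) A.card := by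
          simp only [Val]; rw [sum_filter]
      _ = ∑ a ∈ range (nn D t + 1), ((nn D t).choose a) • (if (1 ≤ a ∧ a * D ^ (12 * 13 ^ (s-1)) ≤ nn D t) then
            6 ^ (s * a) * T / ((NN D t (s-1) : ℝ)/a) ^ ((5 * a + 3)/4) else 0) := by
          rw [sum_powerset_apply_card (fun a : ℕ => if (1 ≤ a ∧ a * D ^ (12 * 13 ^ (s-1)) ≤ nn D t) then
            6 ^ (s * a) * T / ((NN D t (s-1) : ℝ)/a) ^ ((5 * a + 3)/4) else 0), card_univ, Fintype.card_fin]
      _ ≤ ∑ a ∈ range (nn D t + 1), (if 1 ≤ a then T * (1/(4*t:ℝ))^a else 0) := by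
          apply sum_le_sum
          intro a _
          by_cases h : (1 ≤ a ∧ a * D ^ (12 * 13 ^ (s-1)) ≤ nn D t)
          · rw [if_pos h, if_pos h.1, nsmul_eq_mul]
            have ha : (0:ℝ) < a := by exact_mod_cast h.1
            have hNp : (0:ℝ) < NN D t (s-1) := by exact_mod_cast NN_pos D t hD1 (s-1)
            have hkb := key_bound t s a (nn D t) (D ^ (13 ^ (s-1))) (NN D t (s-1)) ((5*a+3)/4) ht h.1
              (nn_eq D t (s-1) (by omega)) (hD_cond Δ t s ht hs'.1) (by
                have : (D ^ (13 ^ (s-1)))^12 = D ^ (12 * 13 ^ (s-1)) := by rw [← pow_mul]; congr 1; ring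
                rw [this]; exact h.2) (Nat.one_le_pow _ _ (by omega)) (by omega)
            have hzp : (0:ℝ) < ((NN D t (s-1) : ℝ)/a) ^ ((5 * a + 3)/4) := by positivity
            rw [mul_div_assoc', div_le_iff₀ hzp]
            calc ((nn D t).choose a : ℝ) * (6 ^ (s * a) * T) = (((nn D t).choose a : ℝ) * 6 ^ (s * a)) * T := by ring
              _ ≤ (((NN D t (s-1) : ℝ)/a)^((5*a+3)/4) * (1/(4*t:ℝ))^a) * T := by gcongr
              _ = _ := by ring
          · rw [if_neg h]; simp only [smul_zero]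
            split_ifs
            · positivity
            · exact le_refl _
      _ ≤ T * ∑' k : ℕ, (1/(4*t:ℝ))^(k+1) := by
          rw [← sum_filter]
          have e : (range (nn D t + 1)).filter (fun a => 1 ≤ a) = (range (nn D t)).image (fun k => k+1) := by
            ext a; rw [mem_filter, mem_range, mem_image]
            constructor
            · intro h; exact ⟨a-1, by rw [mem_range]; omega, by omega⟩
            · rintro ⟨k, hk, rfl⟩; rw [mem_range] at hk; omega
          rw [e, sum_image (by intro a _ b _ h; simpa using h), ← mul_sum]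
          apply mul_le_mul_of_nonneg_left _ hTpos.le
          have hx1 : 1/(4*t:ℝ) < 1 := by
            rw [div_lt_one (by positivity)]
            have : (1:ℝ) ≤ t := by exact_mod_cast ht
            linarith
          have hsm : Summable (fun k : ℕ => (1/(4*t:ℝ))^(k+1)) := by
            simpa [pow_succ] using (summable_geometric_of_lt_one (by positivity) hx1).mul_right (1/(4*t:ℝ))
          exact hsm.sum_le_tsum _ (fun k _ => by positivity)
      _ ≤ T * ((4/3) * (1/(4*t:ℝ))) := by
          apply mul_le_mul_of_nonneg_left _ hTpos.le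
          have ht1 : (1:ℝ) ≤ t := by exact_mod_cast ht
          have hx1 : 1/(4*t:ℝ) ≤ 1/4 := by
            apply div_le_div_of_nonneg_left (by norm_num) (by norm_num)
            linarith
          have hx0 : 0 ≤ 1/(4*t:ℝ) := by positivity
          have : (fun k : ℕ => (1/(4*t:ℝ))^(k+1)) = fun k => (1/(4*t:ℝ))^k * (1/(4*t:ℝ)) := by ext k; rw [pow_succ]
          rw [this, tsum_mul_right, tsum_geometric_of_lt_one hx0 (by linarith)]
          apply mul_le_mul_of_nonneg_right _ hx0
          rw [inv_le_comm₀ (by linarith) (by norm_num)]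
          have e34 : ((4:ℝ)/3)⁻¹ = 3/4 := by norm_num
          rw [e34]
          linarith
  have hfin : T ≤ ∑ s ∈ Icc 1 t, ∑ A ∈ Val s, ((Bad s A).card : ℝ) := by
    have h1 := (card_le_card hcover).trans card_biUnion_le
    have h2 : ∀ s, ((Val s).biUnion (fun A => Bad s A)).card ≤ ∑ A ∈ Val s, (Bad s A).card := fun s => card_biUnion_le
    have h3 := h1.trans (sum_le_sum (fun s _ => h2 s))
    rw [card_univ] at h3
    rw [hT]
    exact_mod_cast h3
  have hfin2 := hfin.trans (sum_le_sum hsum1)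
  rw [sum_const, Nat.card_Icc, nsmul_eq_mul] at hfin2
  have ht' : (0:ℝ) < t := by exact_mod_cast ht
  have e : ((t + 1 - 1 : ℕ) : ℝ) * (T * ((4/3) * (1/(4*t:ℝ)))) = T * (1/3) := by
    rw [Nat.add_sub_cancel]; field_simp
  rw [e] at hfin2
  linarith


section det

variable {t n : ℕ} {N : ℕ → ℕ}

/-- the bipartite graph of the functions `f i` -/
def Gr (f : (i : Fin t) → Fin n → Fin (N i)) : SimpleGraph (Fin n ⊕ (Σ i : Fin t, Fin (N i))) :=
  SimpleGraph.fromRel (fun u v => ∃ x i, u = Sum.inl x ∧ v = Sum.inr ⟨i, f i x⟩)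

lemma Gr_adj_inl (f : (i : Fin t) → Fin n → Fin (N i)) (x : Fin n) (w : Fin n ⊕ (Σ i : Fin t, Fin (N i)))
    (h : (Gr f).Adj (Sum.inl x) w) : ∃ i, w = Sum.inr ⟨i, f i x⟩ := by
  rw [Gr, SimpleGraph.fromRel_adj] at h
  rcases h.2 with ⟨y, i, h1, h2⟩ | ⟨y, i, h1, h2⟩
  · rw [Sum.inl.injEq] at h1
    subst h1
    exact ⟨i, h2⟩
  · simp at h2

lemma Gr_adj_inr (f : (i : Fin t) → Fin n → Fin (N i)) (i : Fin t) (j : Fin (N i)) (w : Fin n ⊕ (Σ i : Fin t, Fin (N i)))
    (h : (Gr f).Adj (Sum.inr ⟨i, j⟩) w) : ∃ x, w = Sum.inl x ∧ f i x = j := by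
  rw [Gr, SimpleGraph.fromRel_adj] at h
  rcases h.2 with ⟨y, k, h1, h2⟩ | ⟨y, k, h1, h2⟩
  · simp at h1
  · refine ⟨y, h1, ?_⟩
    rw [Sum.inr.injEq, Sigma.mk.injEq] at h2
    obtain ⟨h3, h4⟩ := h2
    subst h3
    exact (eq_of_heq h4).symm

open Classical in
/-- the deterministic part -/
lemma det_part (Δ D : ℕ) (ht : 1 ≤ t) (hD1 : 1 ≤ D) (hD : 8 * Δ * t ≤ D)
    (f : (i : Fin t) → Fin (nn D t) → Fin (NN D t i))
    (hf : ∀ s, 1 ≤ s → s ≤ t → ∀ A : Finset (Fin (nn D t)), A.Nonempty →
        A.card * D ^ (12 * 13 ^ (s - 1)) ≤ nn D t →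
        4 * ∑ i ∈ (univ : Finset (Fin t)).filter (fun i => i.val < s), (A.card - (A.image (f i)).card)
          < 5 * A.card)
    (K : (Fin (nn D t) ⊕ (Σ i : Fin t, Fin (NN D t i))) →
      (Fin (nn D t) ⊕ (Σ i : Fin t, Fin (NN D t i))) → Prop)
    (S : Set (Fin (nn D t) ⊕ (Σ i : Fin t, Fin (NN D t i))))
    (hsymm : ∀ u v, K u v → K v u) (hK : ∀ u v, K u v → (Gr f).Adj u v) (hKS : ∀ u v, K u v → u ∈ S)
    (hS : S.Nonempty) (h3 : ∀ v ∈ S, 3 ≤ {w | K v w}.ncard) (hΔ : ∀ v ∈ S, {w | K v w}.ncard ≤ Δ) : False := by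
  let E : Fin t → Finset (Fin (nn D t)) := fun i => univ.filter (fun x => K (Sum.inl x) (Sum.inr ⟨i, f i x⟩))
  let A : Finset (Fin (nn D t)) := univ.filter (fun x => Sum.inl x ∈ S)
  have hEA : ∀ i, E i ⊆ A := by
    intro i x hx
    simp only [E, mem_filter] at hx
    simp only [A, mem_filter]
    exact ⟨mem_univ _, hKS _ _ hx.2⟩
  have hA : A.Nonempty := by
    obtain ⟨v, hv⟩ := hS
    rcases v with x | ⟨i, j⟩
    · exact ⟨x, by simp only [A, mem_filter]; exact ⟨mem_univ _, hv⟩⟩
    · have h := h3 _ hv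
      have hne : {w | K (Sum.inr ⟨i, j⟩) w}.Nonempty := by
        apply Set.nonempty_of_ncard_ne_zero; omega
      obtain ⟨w, hw⟩ := hne
      obtain ⟨x, rfl, _⟩ := Gr_adj_inr f i j w (hK _ _ hw)
      exact ⟨x, by simp only [A, mem_filter]; exact ⟨mem_univ _, hKS _ _ (hsymm _ _ hw)⟩⟩
  -- degrees on the left
  have hleft : ∀ x ∈ A, 3 ≤ ((univ : Finset (Fin t)).filter (fun i => x ∈ E i)).card := by
    intro x hx
    simp only [A, mem_filter] at hx
    have h := h3 _ hx.2
    refine h.trans ?_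
    have hsub : {w | K (Sum.inl x) w} ⊆ (((univ : Finset (Fin t)).filter (fun i => x ∈ E i)).image
        (fun i => (Sum.inr ⟨i, f i x⟩ : (Fin (nn D t) ⊕ (Σ i : Fin t, Fin (NN D t i))))) : Finset _) := by
      intro w hw
      obtain ⟨i, rfl⟩ := Gr_adj_inl f x w (hK _ _ hw)
      rw [mem_coe, mem_image]
      refine ⟨i, ?_, rfl⟩
      rw [mem_filter]
      refine ⟨mem_univ _, ?_⟩
      simp only [E, mem_filter]
      exact ⟨mem_univ _, hw⟩
    refine (Set.ncard_le_ncard hsub (Finset.finite_toSet _)).trans ?_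
    rw [Set.ncard_coe_finset]
    exact card_image_le
  have hsumE : 3 * A.card ≤ ∑ i, (E i).card := by
    have h1 : ∑ i : Fin t, (E i).card = ∑ x ∈ A, ((univ : Finset (Fin t)).filter (fun i => x ∈ E i)).card := by
      have e1 : ∀ i : Fin t, (E i).card = ∑ x ∈ A, if x ∈ E i then 1 else 0 := by
        intro i
        rw [← sum_filter, sum_const, smul_eq_mul, mul_one]
        have e0 : E i = A.filter (fun x => x ∈ E i) := by
          ext x
          constructor
          · intro h; exact Finset.mem_filter.mpr ⟨hEA i h, h⟩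
          · intro h; exact (Finset.mem_filter.mp h).2
        exact congrArg Finset.card e0
      have e2 : ∀ x, ((univ : Finset (Fin t)).filter (fun i => x ∈ E i)).card = ∑ i : Fin t, if x ∈ E i then 1 else 0 := by
        intro x; rw [card_filter]
      rw [sum_congr rfl (fun i _ => e1 i), sum_comm, sum_congr rfl (fun x _ => e2 x)]
    rw [h1]
    calc 3 * A.card = ∑ x ∈ A, 3 := by rw [sum_const, smul_eq_mul, mul_comm]
      _ ≤ _ := sum_le_sum hleft
  -- fibres on the right
  have hfib : ∀ i, ∀ j ∈ (E i).image (f i), 3 ≤ ((E i).filter (fun x => f i x = j)).card ∧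
      ((E i).filter (fun x => f i x = j)).card ≤ Δ := by
    intro i j hj
    rw [mem_image] at hj
    obtain ⟨x, hx, rfl⟩ := hj
    simp only [E, mem_filter] at hx
    have hmem : (Sum.inr ⟨i, f i x⟩ : (Fin (nn D t) ⊕ (Σ i : Fin t, Fin (NN D t i)))) ∈ S := hKS _ _ (hsymm _ _ hx.2)
    have heq : {w | K (Sum.inr ⟨i, f i x⟩) w}.ncard = ((E i).filter (fun y => f i y = f i x)).card := by
      have : {w | K (Sum.inr ⟨i, f i x⟩) w} = Sum.inl '' (((E i).filter (fun y => f i y = f i x) : Finset _) : Set (Fin (nn D t))) := by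
        ext w
        constructor
        · intro hw
          obtain ⟨y, rfl, hy⟩ := Gr_adj_inr f i (f i x) w (hK _ _ hw)
          refine ⟨y, ?_, rfl⟩
          rw [mem_coe, mem_filter]
          refine ⟨?_, hy⟩
          simp only [E, mem_filter]
          refine ⟨mem_univ _, ?_⟩
          rw [hy]
          exact hsymm _ _ hw
        · rintro ⟨y, hy, rfl⟩
          rw [mem_coe, mem_filter] at hy
          have hy1 := hy.1
          simp only [E, mem_filter] at hy1
          rw [hy.2] at hy1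
          exact hsymm _ _ hy1.2
      rw [this, Set.ncard_image_of_injective _ Sum.inl_injective, Set.ncard_coe_finset]
    rw [← heq]
    exact ⟨h3 _ hmem, hΔ _ hmem⟩
  have hlow : ∀ i, 3 * ((E i).image (f i)).card ≤ (E i).card := fun i =>
    Finset.mul_card_image_le_card (E i) 3 (fun j hj => (hfib i j hj).1)
  have hup : ∀ i : Fin t, (E i).card ≤ Δ * NN D t i := by
    intro i
    have h1 := Finset.card_le_mul_card_image (f := f i) (E i) Δ (fun j hj => (hfib i j hj).2)
    refine h1.trans (Nat.mul_le_mul_left _ ?_)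
    have := card_le_univ ((E i).image (f i))
    rwa [Fintype.card_fin] at this
  have hcol : ∀ i, 2 * (E i).card ≤ 3 * (A.card - (A.image (f i)).card) := by
    intro i
    have h1 : (A.image (f i)).card ≤ ((E i).image (f i)).card + (A.card - (E i).card) := by
      have : A.image (f i) ⊆ (E i).image (f i) ∪ (A \ E i).image (f i) := by
        rw [← image_union, union_sdiff_of_subset (hEA i)]
      refine (card_le_card this).trans ((card_union_le _ _).trans ?_)
      have h2 : ((A \ E i).image (f i)).card ≤ A.card - (E i).card := by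
        refine card_image_le.trans ?_
        rw [card_sdiff_of_subset (hEA i)]
      omega
    have h2 := hlow i
    have h3 := card_le_card (hEA i)
    omega
  have hEcard : ∀ i, (E i).card ≤ A.card := fun i => card_le_card (hEA i)
  -- choose the threshold level
  have hmain : ∃ s, s ≤ t ∧ (∀ i, i < s → A.card * D ^ (12 * 13 ^ i) ≤ nn D t) ∧
      (s < t → nn D t < A.card * D ^ (12 * 13 ^ s)) := by
    by_cases hex : ∃ s, s < t ∧ nn D t < A.card * D ^ (12 * 13 ^ s)
    · have h1 := Nat.find_spec hex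
      refine ⟨Nat.find hex, h1.1.le, ?_, fun _ => h1.2⟩
      intro i hi
      have := Nat.find_min hex hi
      push Not at this
      exact this (by omega)
    · push Not at hex
      exact ⟨t, le_refl _, fun i hi => hex i hi, fun h => absurd h (lt_irrefl _)⟩
  obtain ⟨s, hst, hlt, hge⟩ := hmain
  have hApos : 1 ≤ A.card := card_pos.mpr hA
  have hbig : ∀ i : Fin t, s < i.val → 8 * t * (E i).card ≤ A.card := by
    intro i hi
    have hst' : s < t := by omega
    have h1 := hge hst'
    have h1e := nn_eq D t i (by omega)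
    have h1 : D ^ (13 ^ i.val) * NN D t i < A.card * D ^ (12 * 13 ^ s) := by rw [← h1e]; exact h1
    have h2 : 12 * 13 ^ s + 1 ≤ 13 ^ i.val := by
      have h3 : 13 ^ (s+1) ≤ 13 ^ i.val := Nat.pow_le_pow_right (by norm_num) hi
      have h4 : 0 < 13 ^ s := Nat.pow_pos (by norm_num)
      rw [pow_succ] at h3
      omega
    have h3 : D ^ (12 * 13 ^ s) * D ≤ D ^ (13 ^ i.val) := by
      rw [← pow_succ]
      exact Nat.pow_le_pow_right (by omega) h2
    have h4 : D ^ (12 * 13 ^ s) * (D * NN D t i) < D ^ (12 * 13 ^ s) * A.card := by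
      calc D ^ (12 * 13 ^ s) * (D * NN D t i) = (D ^ (12 * 13 ^ s) * D) * NN D t i := by ring
        _ ≤ D ^ (13 ^ i.val) * NN D t i := Nat.mul_le_mul_right _ h3
        _ < A.card * D ^ (12 * 13 ^ s) := h1
        _ = _ := mul_comm _ _
    have h5 : D * NN D t i < A.card := Nat.lt_of_mul_lt_mul_left h4
    calc 8 * t * (E i).card ≤ 8 * t * (Δ * NN D t i) := Nat.mul_le_mul_left _ (hup i)
      _ = (8 * Δ * t) * NN D t i := by ring
      _ ≤ D * NN D t i := by
          exact Nat.mul_le_mul_right _ hD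
      _ ≤ A.card := h5.le
  have hsum3 : 8 * ∑ i ∈ (univ : Finset (Fin t)).filter (fun i => s < i.val), (E i).card ≤ A.card := by
    have h1 : t * (8 * ∑ i ∈ (univ : Finset (Fin t)).filter (fun i => s < i.val), (E i).card) ≤ t * A.card := by
      calc t * (8 * ∑ i ∈ (univ : Finset (Fin t)).filter (fun i => s < i.val), (E i).card)
          = ∑ i ∈ (univ : Finset (Fin t)).filter (fun i => s < i.val), 8 * t * (E i).card := by
            rw [← mul_sum]; ring
        _ ≤ ∑ i ∈ (univ : Finset (Fin t)).filter (fun i => s < i.val), A.card := by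
            apply sum_le_sum
            intro i hi
            exact hbig i (mem_filter.mp hi).2
        _ = ((univ : Finset (Fin t)).filter (fun i => s < i.val)).card * A.card := by
            rw [sum_const, smul_eq_mul]
        _ ≤ t * A.card := by
            apply Nat.mul_le_mul_right
            have := card_le_univ ((univ : Finset (Fin t)).filter (fun i => s < i.val))
            rwa [Fintype.card_fin] at this
    exact Nat.le_of_mul_le_mul_left h1 (by omega)
  have hsum2 : ∑ i ∈ (univ : Finset (Fin t)).filter (fun i => i.val = s), (E i).card ≤ A.card := by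
    have hc : ((univ : Finset (Fin t)).filter (fun i => i.val = s)).card ≤ 1 := by
      rw [card_le_one]
      intro i hi j hj
      rw [mem_filter] at hi hj
      ext; omega
    calc ∑ i ∈ (univ : Finset (Fin t)).filter (fun i => i.val = s), (E i).card
        ≤ ∑ i ∈ (univ : Finset (Fin t)).filter (fun i => i.val = s), A.card := sum_le_sum (fun i _ => hEcard i)
      _ = ((univ : Finset (Fin t)).filter (fun i => i.val = s)).card * A.card := by rw [sum_const, smul_eq_mul]
      _ ≤ 1 * A.card := Nat.mul_le_mul_right _ hc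
      _ = A.card := one_mul _
  have hsplit : ∑ i, (E i).card = ∑ i ∈ (univ : Finset (Fin t)).filter (fun i => i.val < s), (E i).card +
      (∑ i ∈ (univ : Finset (Fin t)).filter (fun i => i.val = s), (E i).card +
       ∑ i ∈ (univ : Finset (Fin t)).filter (fun i => s < i.val), (E i).card) := by
    rw [sum_filter, sum_filter, sum_filter, ← sum_add_distrib, ← sum_add_distrib]
    apply sum_congr rfl
    intro i _
    rcases lt_trichotomy i.val s with h | h | h
    · rw [if_pos h, if_neg (by omega), if_neg (by omega)]; ring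
    · rw [if_neg (by omega), if_pos h, if_neg (by omega)]; ring
    · rw [if_neg (by omega), if_neg (by omega), if_pos h]; ring
  have hsum1 : 2 * ∑ i ∈ (univ : Finset (Fin t)).filter (fun i => i.val < s), (E i).card ≤
      3 * ∑ i ∈ (univ : Finset (Fin t)).filter (fun i => i.val < s), (A.card - (A.image (f i)).card) := by
    rw [mul_sum, mul_sum]
    exact sum_le_sum (fun i _ => hcol i)
  rcases Nat.eq_zero_or_pos s with hs0 | hs0
  · have : (univ : Finset (Fin t)).filter (fun i => i.val < s) = ∅ := by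
      rw [filter_eq_empty_iff]; intro i _; omega
    rw [this, sum_empty] at hsplit
    omega
  · have hg := hf s hs0 hst A hA (hlt (s-1) (by omega))
    omega

end det

/-- the sizes of the levels add up to at most `n` -/
lemma sum_NN_le (D t : ℕ) (ht : 1 ≤ t) (htD : t ≤ D) : ∑ i : Fin t, NN D t i ≤ nn D t := by
  have h1 : ∀ i : Fin t, t * NN D t i ≤ nn D t := by
    intro i
    rw [nn_eq D t i (by omega)]
    apply Nat.mul_le_mul_right
    calc t ≤ D := htD
      _ = D ^ 1 := (pow_one D).symm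
      _ ≤ D ^ (13 ^ i.val) := Nat.pow_le_pow_right (by omega) (Nat.one_le_pow _ _ (by norm_num))
  have h2 : t * ∑ i : Fin t, NN D t i ≤ t * nn D t := by
    rw [mul_sum]
    calc ∑ i : Fin t, t * NN D t i ≤ ∑ i : Fin t, nn D t := sum_le_sum (fun i _ => h1 i)
      _ = t * nn D t := by rw [sum_const, card_univ, Fintype.card_fin, smul_eq_mul]
  exact Nat.le_of_mul_le_mul_left h2 (by omega)


/-- Explicit form: for all `Δ` and `t ≥ 1` there is a graph with `n ≤ 2 (64 (Δ + 1) t) ^ (13 ^ t)`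
vertices and at least `t n / 2` edges in which every nonempty subgraph of minimum degree
at least `3` has maximum degree larger than `Δ`. -/
theorem strong_explicit (Δ t : ℕ) (ht1 : 1 ≤ t) :
    ∃ n : ℕ, 0 < n ∧ n ≤ 2 * (64 * (Δ + 1) * t) ^ (13 ^ t) ∧ ∃ G : SimpleGraph (Fin n),
    t * n ≤ 2 * G.edgeSet.ncard ∧
    ∀ H : G.Subgraph, H.verts.Nonempty → (∀ v ∈ H.verts, 3 ≤ (H.neighborSet v).ncard) →
      ∃ v ∈ H.verts, Δ < (H.neighborSet v).ncard := by
  classical
  have key := exists_good Δ t ht1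
  have hDt : t ≤ 64 * (Δ + 1) * t := by nlinarith
  have hDΔ : 8 * Δ * t ≤ 64 * (Δ + 1) * t := by nlinarith
  generalize 64 * (Δ + 1) * t = D at key hDt hDΔ ⊢
  have hD1 : 1 ≤ D := by omega
  obtain ⟨f, hf⟩ := key
  have hn0 : 0 < nn D t := Nat.pow_pos (by omega)
  let e := Fintype.equivFin (Fin (nn D t) ⊕ (Σ i : Fin t, Fin (NN D t i)))
  have hcard : Fintype.card (Fin (nn D t) ⊕ (Σ i : Fin t, Fin (NN D t i))) = nn D t + ∑ i : Fin t, NN D t i := by
    rw [Fintype.card_sum, Fintype.card_fin, Fintype.card_sigma]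
    congr 1
    exact sum_congr rfl (fun i _ => Fintype.card_fin _)
  have hle := sum_NN_le D t ht1 hDt
  refine ⟨Fintype.card (Fin (nn D t) ⊕ (Σ i : Fin t, Fin (NN D t i))), by omega, ?_,
    (Gr f).comap e.symm, ?_, ?_⟩
  · rw [hcard]
    have : nn D t = D ^ (13 ^ t) := rfl
    omega
  · -- number of edges
    have hinj : Function.Injective (fun p : Fin (nn D t) × Fin t => s(e (Sum.inl p.1), e (Sum.inr ⟨p.2, f p.2 p.1⟩))) := by
      rintro ⟨x, i⟩ ⟨y, j⟩ h
      simp only [Sym2.eq_iff, EmbeddingLike.apply_eq_iff_eq] at h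
      rcases h with ⟨h1, h2⟩ | ⟨h1, h2⟩
      · rw [Sum.inl.injEq] at h1
        rw [Sum.inr.injEq, Sigma.mk.injEq] at h2
        rw [h1, h2.1]
      · simp at h1
    have hsub : (Set.range (fun p : Fin (nn D t) × Fin t => s(e (Sum.inl p.1), e (Sum.inr ⟨p.2, f p.2 p.1⟩))))
        ⊆ ((Gr f).comap e.symm).edgeSet := by
      rintro _ ⟨⟨x, i⟩, rfl⟩
      rw [SimpleGraph.mem_edgeSet, SimpleGraph.comap_adj]
      simp only [Equiv.symm_apply_apply]
      rw [Gr, SimpleGraph.fromRel_adj]
      exact ⟨by simp, Or.inl ⟨x, i, rfl, rfl⟩⟩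
    have h1 := Set.ncard_le_ncard hsub (Set.toFinite _)
    rw [← Set.image_univ, Set.ncard_image_of_injective _ hinj, Set.ncard_univ, Nat.card_prod, Nat.card_fin, Nat.card_fin] at h1
    have h2 : t * Fintype.card (Fin (nn D t) ⊕ (Σ i : Fin t, Fin (NN D t i))) ≤ 2 * (nn D t * t) := by
      rw [hcard]; nlinarith
    exact h2.trans (Nat.mul_le_mul_left 2 h1)
  · -- no subgraph of bounded maximum degree and minimum degree at least three
    intro H hHne hH3
    by_contra hcon
    push Not at hcon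
    have hncard : ∀ v, {w | H.Adj (e v) (e w)}.ncard = (H.neighborSet (e v)).ncard := by
      intro v
      have : H.neighborSet (e v) = e '' {w | H.Adj (e v) (e w)} := by
        ext w
        constructor
        · intro hw
          refine ⟨e.symm w, ?_, by simp⟩
          show H.Adj (e v) (e (e.symm w))
          rw [Equiv.apply_symm_apply]; exact hw
        · rintro ⟨u, hu, rfl⟩
          exact hu
      rw [this, Set.ncard_image_of_injective _ e.injective]
    refine det_part Δ D ht1 hD1 hDΔ f hf (fun u v => H.Adj (e u) (e v)) {v | e v ∈ H.verts}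
      (fun u v h => h.symm) ?_ (fun u v h => H.edge_vert h) ?_ ?_ ?_
    · intro u v h
      have := H.adj_sub h
      rw [SimpleGraph.comap_adj] at this
      simpa using this
    · obtain ⟨w, hw⟩ := hHne
      exact ⟨e.symm w, by simpa using hw⟩
    · intro v hv
      have := hH3 (e v) hv
      rw [← hncard] at this
      exact this
    · intro v hv
      have := hcon (e v) hv
      rw [← hncard] at this
      exact this

end Pool.Agent.KS6_69.QR
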