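import Mathlib
import Pool.Agent.KS6_69.QRCore
import Pool.Agent.KS6_69.QRBlow

set_option autoImplicit false

/-!
# The uniform lower bound
-/

namespace Pool.Agent.KS6_69.QR

open Finset

/-- the graph in which `k` vertices are joined to everything -/
def hub (n k : ℕ) : SimpleGraph (Fin n) where
  Adj u v := u ≠ v ∧ (u.val < k ∨ v.val < k)
  symm := ⟨fun _ _ h => ⟨h.1.symm, h.2.symm⟩⟩
  loopless := ⟨fun _ h => h.1 rfl⟩

lemma hub_good (n k Δ : ℕ) : Good k Δ (hub n k) := by
  intro H hne hdeg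
  exfalso
  have hk : ({w : Fin n | w.val < k}).ncard ≤ k := by
    have h1 : {w : Fin n | w.val < k} = (fun w : Fin n => w.val) ⁻¹' (Set.Iio k) := rfl
    have h2 : (Set.Iio k).ncard = k := by
      rw [Set.ncard_eq_toFinset_card']; simp
    rw [h1]
    have h3 : ((fun w : Fin n => w.val) '' ((fun w : Fin n => w.val) ⁻¹' (Set.Iio k))).ncard ≤
        (Set.Iio k).ncard := Set.ncard_le_ncard (Set.image_preimage_subset _ _) (Set.finite_Iio k)
    rw [Set.ncard_image_of_injective _ Fin.val_injective, h2] at h3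
    exact h3
  by_cases h : ∃ v ∈ H.verts, k ≤ v.val
  · obtain ⟨v, hv, hkv⟩ := h
    have h1 : H.neighborSet v ⊆ {w : Fin n | w.val < k} := by
      intro w hw
      have := H.adj_sub hw
      rcases this.2 with h | h
      · omega
      · exact h
    have h2 := Set.ncard_le_ncard h1 (Set.toFinite _)
    have h3 := hdeg v hv
    omega
  · push Not at h
    obtain ⟨v, hv⟩ := hne
    have h1 : H.neighborSet v ⊆ {w : Fin n | w.val < k} := by
      intro w hw
      exact h w (H.edge_vert (SimpleGraph.Subgraph.Adj.symm hw))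
    have h2 := Set.ncard_le_ncard h1 (Set.toFinite _)
    have h3 := hdeg v hv
    omega

lemma hub_edges (n k : ℕ) (hk : k ≤ n) : k * (n - 1) ≤ 2 * (hub n k).edgeSet.ncard := by
  classical
  rcases Nat.eq_zero_or_pos n with rfl | hn
  · simp
  obtain ⟨N, rfl⟩ : ∃ N, n = N + 1 := ⟨n - 1, by omega⟩
  let F : Fin k × Fin N → (hub (N + 1) k).Dart := fun p =>
    ⟨(Fin.castLE hk p.1, (Fin.castLE hk p.1).succAbove p.2),
      ⟨(Fin.succAbove_ne _ _).symm, Or.inl p.1.isLt⟩⟩
  have hF : Function.Injective F := by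
    rintro ⟨a, b⟩ ⟨a', b'⟩ h
    have h1 := congrArg (fun q : (hub (N + 1) k).Dart => q.toProd) h
    simp only [F, Prod.mk.injEq] at h1
    have h2 : a = a' := by
      have := h1.1
      exact Fin.castLE_injective hk this
    subst h2
    have h3 := Fin.succAbove_right_injective h1.2
    rw [h3]
  have h1 := Fintype.card_le_of_injective F hF
  rw [Fintype.card_prod, Fintype.card_fin, Fintype.card_fin,
    SimpleGraph.dart_card_eq_twice_card_edges] at h1
  have e2 : (hub (N + 1) k).edgeSet.ncard = #(hub (N + 1) k).edgeFinset := by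
    rw [Set.ncard_eq_toFinset_card']
    rfl
  rw [e2]
  exact h1

lemma seven_add_le (t : ℕ) (ht : 1 ≤ t) : 7 + t ≤ 8 ^ t := by
  induction t, ht using Nat.le_induction with
  | base => norm_num
  | succ t ht ih => rw [pow_succ]; omega

lemma size_bound (s Δ t : ℕ) (hs : 2 * s < Δ) (hΔ : 3 ≤ Δ) (ht : 1 ≤ t) :
    s * (2 * (64 * (s * Δ + 1) * t) ^ (13 ^ t)) ≤ Δ ^ (104 ^ t) := by
  have h1 : 64 ≤ Δ ^ 4 := by
    calc 64 ≤ 3 ^ 4 := by norm_num
      _ ≤ Δ ^ 4 := Nat.pow_le_pow_left hΔ 4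
  have h2 : s * Δ + 1 ≤ Δ ^ 2 := by nlinarith
  have h3 : t ≤ Δ ^ t := (Nat.lt_pow_self (by omega)).le
  have h4 : 64 * (s * Δ + 1) * t ≤ Δ ^ (6 + t) := by
    calc 64 * (s * Δ + 1) * t ≤ Δ ^ 4 * Δ ^ 2 * Δ ^ t := by gcongr
      _ = Δ ^ (6 + t) := by rw [← pow_add, ← pow_add]
  have h5 : (6 + t) * 13 ^ t + 1 ≤ 104 ^ t := by
    have h6 := seven_add_le t ht
    have h7 : 1 ≤ 13 ^ t := Nat.one_le_pow _ _ (by norm_num)
    calc (6 + t) * 13 ^ t + 1 ≤ (6 + t) * 13 ^ t + 13 ^ t := by omega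
      _ = (7 + t) * 13 ^ t := by ring
      _ ≤ 8 ^ t * 13 ^ t := Nat.mul_le_mul_right _ h6
      _ = 104 ^ t := by rw [← mul_pow]; norm_num
  calc s * (2 * (64 * (s * Δ + 1) * t) ^ (13 ^ t))
      = (2 * s) * (64 * (s * Δ + 1) * t) ^ (13 ^ t) := by ring
    _ ≤ Δ * (Δ ^ (6 + t)) ^ (13 ^ t) := by gcongr
    _ = Δ ^ ((6 + t) * 13 ^ t + 1) := by rw [← pow_mul, pow_succ, mul_comm]
    _ ≤ Δ ^ (104 ^ t) := Nat.pow_le_pow_right (by omega) h5

/-- integer form of the lower bound -/
lemma lower_nat (k Δ n t : ℕ) (hk : 2 ≤ k) (hΔ : k < Δ) (ht : 1 ≤ t) (hn : Δ ^ (104 ^ t) ≤ n) :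
    ∃ G : SimpleGraph (Fin n), k * t * n ≤ 12 * G.edgeSet.ncard ∧ Good k Δ G := by
  classical
  set s : ℕ := k / 2 with hs
  have hs1 : 1 ≤ s := by omega
  have hs3 : k ≤ 3 * s := by omega
  obtain ⟨n0, hn0, hn0le, G0, hG0e, hG0⟩ := strong_explicit (s * Δ) t ht
  have hgood0 : Good 2 (s * Δ) G0 := fun H h1 h2 => hG0 H h1 (fun v hv => h2 v hv)
  have hsn : s * n0 ≤ n := by
    calc s * n0 ≤ s * (2 * (64 * (s * Δ + 1) * t) ^ (13 ^ t)) := Nat.mul_le_mul_left _ hn0le
      _ ≤ Δ ^ (104 ^ t) := size_bound s Δ t (by omega) (by omega) ht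
      _ ≤ n := hn
  have hsn0 : 0 < n0 * s := Nat.mul_pos hn0 hs1
  set m : ℕ := n / (n0 * s) with hm
  set r : ℕ := n % (n0 * s) with hr
  have hmr : m * (n0 * s) + r = n := by
    rw [hm, hr, mul_comm]; exact Nat.div_add_mod n (n0 * s)
  have hrlt : r < n0 * s := Nat.mod_lt _ hsn0
  have hm1 : 1 ≤ m := by
    rw [hm, Nat.le_div_iff_mul_le hsn0]
    rw [mul_comm s n0] at hsn
    omega
  have hcard : Fintype.card ((Fin m × Fin n0 × Fin s) ⊕ Fin r) = Fintype.card (Fin n) := by
    rw [Fintype.card_sum, Fintype.card_prod, Fintype.card_prod]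
    simp only [Fintype.card_fin]
    exact hmr
  have e : ((Fin m × Fin n0 × Fin s) ⊕ Fin r) ≃ Fin n := Fintype.equivOfCardEq hcard
  have hb := blow_good G0 m s r k Δ hs1 (by omega) hgood0
  have hbe := blow_edges G0 m s r
  obtain ⟨h1, h2⟩ := good_iso e k Δ _ hb
  refine ⟨_, ?_, h1⟩
  rw [h2]
  have h3 : n ≤ 2 * (m * (n0 * s)) := by
    have : n0 * s ≤ m * (n0 * s) := Nat.le_mul_of_pos_left _ hm1
    omega
  calc k * t * n ≤ (3 * s) * t * (2 * (m * (n0 * s))) := by gcongr
    _ = 6 * (m * (s * s) * (t * n0)) := by ring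
    _ ≤ 6 * (m * (s * s) * (2 * G0.edgeSet.ncard)) := by gcongr
    _ = 12 * (m * (s * s) * G0.edgeSet.ncard) := by ring
    _ ≤ 12 * (blow G0 m s r).edgeSet.ncard := by gcongr

/-- **The uniform lower bound.** -/
theorem lower (k Δ n : ℕ) (hk : 2 ≤ k) (hΔ : k < Δ) :
    ∃ G : SimpleGraph (Fin n),
      (k : ℝ) / 120 * n * Real.log (Real.log n / Real.log Δ) ≤ G.edgeSet.ncard ∧ Good k Δ G := by
  have hΔ1 : (1 : ℝ) < Δ := by exact_mod_cast (show 1 < Δ by omega)
  have hlΔ : 0 < Real.log Δ := Real.log_pos hΔ1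
  have hk0 : (0 : ℝ) < k := by exact_mod_cast (show 0 < k by omega)
  rcases lt_or_ge n Δ with hn | hn
  · refine ⟨hub n k, ?_, hub_good n k Δ⟩
    have h0 : (0 : ℝ) ≤ Real.log n := Real.log_natCast_nonneg n
    have h1 : Real.log n ≤ Real.log Δ := by
      rcases Nat.eq_zero_or_pos n with rfl | hn0
      · simpa using hlΔ.le
      · exact Real.log_le_log (by exact_mod_cast hn0) (by exact_mod_cast hn.le)
    have h2 : Real.log (Real.log n / Real.log Δ) ≤ 0 :=
      Real.log_nonpos (by positivity) ((div_le_one hlΔ).mpr h1)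
    have h3 : (k : ℝ) / 120 * n * Real.log (Real.log n / Real.log Δ) ≤ 0 :=
      mul_nonpos_of_nonneg_of_nonpos (by positivity) h2
    exact h3.trans (by positivity)
  · set l : ℕ := Nat.log Δ n with hl
    set t : ℕ := Nat.log 104 l with ht
    have hl1 : 1 ≤ l := Nat.log_pos (by omega) hn
    have hn0 : 0 < n := by omega
    have hlog : Real.log (Real.log n / Real.log Δ) ≤ 5 * (t + 1) := by
      have h1 : n < Δ ^ (l + 1) := Nat.lt_pow_succ_log_self (by omega) n
      have h2 : l < 104 ^ (t + 1) := Nat.lt_pow_succ_log_self (by norm_num) l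
      have h3 : n < Δ ^ (104 ^ (t + 1)) := lt_of_lt_of_le h1 (Nat.pow_le_pow_right (by omega) h2)
      have h4 : Real.log n ≤ (104 : ℝ) ^ (t + 1) * Real.log Δ := by
        have : Real.log n ≤ Real.log ((Δ : ℝ) ^ (104 ^ (t + 1))) :=
          Real.log_le_log (by exact_mod_cast hn0) (by exact_mod_cast h3.le)
        rw [Real.log_pow] at this
        exact_mod_cast this
      have hlogn : 0 < Real.log n := by
        apply Real.log_pos
        exact_mod_cast (show 1 < n by omega)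
      have h5 : Real.log n / Real.log Δ ≤ (104 : ℝ) ^ (t + 1) := by
        rw [div_le_iff₀ hlΔ]; exact h4
      have h6 : Real.log (Real.log n / Real.log Δ) ≤ Real.log ((104 : ℝ) ^ (t + 1)) :=
        Real.log_le_log (by positivity) h5
      rw [Real.log_pow] at h6
      have h7 : Real.log 104 ≤ 5 := by
        rw [Real.log_le_iff_le_exp (by norm_num)]
        have h8 := Real.exp_one_gt_d9
        have h9 : Real.exp 5 = (Real.exp 1) ^ 5 := by rw [← Real.exp_nat_mul]; norm_num
        rw [h9]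
        calc (104 : ℝ) ≤ 2.7 ^ 5 := by norm_num
          _ ≤ (Real.exp 1) ^ 5 := by
            apply pow_le_pow_left₀ (by norm_num)
            linarith
      push_cast at h6
      have h8 : ((t : ℝ) + 1) * Real.log 104 ≤ ((t : ℝ) + 1) * 5 := by gcongr
      linarith
    have hn' : (0 : ℝ) < n := by exact_mod_cast hn0
    rcases Nat.eq_zero_or_pos t with ht0 | ht1
    · refine ⟨hub n k, ?_, hub_good n k Δ⟩
      have h1 := hub_edges n k (by omega)
      have h2 : (k : ℝ) * n ≤ 4 * (hub n k).edgeSet.ncard := by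
        have : k * n ≤ 4 * (hub n k).edgeSet.ncard := by
          calc k * n ≤ k * (2 * (n - 1)) := Nat.mul_le_mul_left _ (by omega)
            _ = 2 * (k * (n - 1)) := by ring
            _ ≤ 2 * (2 * (hub n k).edgeSet.ncard) := Nat.mul_le_mul_left _ h1
            _ = _ := by ring
        exact_mod_cast this
      rw [ht0] at hlog
      norm_num at hlog
      have h3 : (k : ℝ) / 120 * n * Real.log (Real.log n / Real.log Δ) ≤ (k : ℝ) / 120 * n * 5 := by
        gcongr
      have h4 : (k : ℝ) / 120 * n * 5 = (k : ℝ) * n / 24 := by ring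
      have h5 : (0 : ℝ) ≤ (hub n k).edgeSet.ncard := by positivity
      linarith
    · have hn2 : Δ ^ (104 ^ t) ≤ n := by
        have h1 : 104 ^ t ≤ l := Nat.pow_log_le_self 104 (by omega)
        exact (Nat.pow_le_pow_right (by omega) h1).trans (Nat.pow_log_le_self Δ (by omega))
      obtain ⟨G, hG1, hG2⟩ := lower_nat k Δ n t hk hΔ ht1 hn2
      refine ⟨G, ?_, hG2⟩
      have h1 : (k : ℝ) * t * n ≤ 12 * G.edgeSet.ncard := by exact_mod_cast hG1
      have ht' : (1 : ℝ) ≤ t := by exact_mod_cast ht1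
      have h3 : (k : ℝ) / 120 * n * Real.log (Real.log n / Real.log Δ) ≤
          (k : ℝ) / 120 * n * (10 * t) := by
        gcongr
        linarith
      have h4 : (k : ℝ) / 120 * n * (10 * t) = (k : ℝ) * t * n / 12 := by ring
      linarith

end Pool.Agent.KS6_69.QR
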