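import Mathlib

set_option autoImplicit false

/-!
# Subgraphs of moderate maximum degree in graphs with many edges

Every graph with `n ≤ R ^ m` vertices and at least `2 m (6 k + 1) n` edges has a nonempty subgraph
all of whose degrees are larger than `k` and at most `406 m ^ 3 k ^ 2 R`.
-/

namespace Pool.Agent.KS6_69.QR

open Finset

variable {V : Type*} [Fintype V] [DecidableEq V]

/-- peeling off vertices of small degree -/
lemma peel (r : V → V → Prop) [DecidableRel r] (hr : ∀ u v, r u v → r v u) (hirr : ∀ v, ¬ r v v)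
    (k : ℕ) : ∀ (N : ℕ) (S : Finset V), #S = N → 2 * k * #S < ∑ v ∈ S, #(S.filter (r v)) →
    ∃ S' ⊆ S, S'.Nonempty ∧ ∀ v ∈ S', k < #(S'.filter (r v)) := by
  intro N
  induction N with
  | zero =>
    intro S hS h
    rw [card_eq_zero] at hS
    subst hS
    simp at h
  | succ N ih =>
    intro S hS h
    by_cases hall : ∀ v ∈ S, k < #(S.filter (r v))
    · exact ⟨S, Subset.refl _, by rw [← card_pos]; omega, hall⟩
    · push Not at hall
      obtain ⟨v, hv, hk⟩ := hall
      obtain ⟨S', hS', h1, h2⟩ := ih (S.erase v) (by rw [card_erase_of_mem hv]; omega) (by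
        rw [card_erase_of_mem hv]
        have h3 : ∀ u ∈ S.erase v, #(S.filter (r u)) =
            #((S.erase v).filter (r u)) + (if r v u then 1 else 0) := by
          intro u hu
          have : S.filter (r u) = ((S.erase v).filter (r u)) ∪ (if r v u then {v} else ∅) := by
            ext w
            simp only [mem_filter, mem_union, mem_erase]
            constructor
            · rintro ⟨hw, hru⟩
              by_cases hwv : w = v
              · right
                subst hwv
                rw [if_pos (hr _ _ hru)]; simp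
              · left; exact ⟨⟨hwv, hw⟩, hru⟩
            · rintro (⟨⟨_, hw⟩, hru⟩ | hw)
              · exact ⟨hw, hru⟩
              · split_ifs at hw with h
                · rw [mem_singleton] at hw
                  subst hw
                  exact ⟨hv, hr _ _ h⟩
                · simp at hw
          rw [this, card_union_of_disjoint]
          · split_ifs <;> simp
          · rw [disjoint_left]
            intro w hw
            rw [mem_filter, mem_erase] at hw
            split_ifs
            · simpa using hw.1.1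
            · simp
        have h4 : ∑ u ∈ S, #(S.filter (r u)) = #(S.filter (r v)) +
            ∑ u ∈ S.erase v, #(S.filter (r u)) := (add_sum_erase S _ hv).symm
        have h5 : ∑ u ∈ S.erase v, (if r v u then 1 else 0) = #(S.filter (r v)) := by
          rw [← card_filter]
          congr 1
          ext w
          simp only [mem_filter, mem_erase]
          constructor
          · rintro ⟨⟨_, h⟩, h'⟩; exact ⟨h, h'⟩
          · rintro ⟨h, h'⟩
            refine ⟨⟨?_, h⟩, h'⟩
            rintro rfl
            exact hirr _ h'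
        rw [h4, sum_congr rfl h3, sum_add_distrib, h5] at h
        obtain ⟨c, hc⟩ : ∃ c, #S = c + 1 := ⟨#S - 1, by omega⟩
        rw [hc] at h ⊢
        have : 2 * k * (c + 1) = 2 * k * c + 2 * k := by ring
        rw [this] at h
        simp only [Nat.add_sub_cancel]
        omega)
      exact ⟨S', hS'.trans (erase_subset _ _), h1, h2⟩

/-- the last step: from a set `A` with many edges into a small set `C` to a subgraph -/
lemma finish (G : SimpleGraph V) (k d P : ℕ) (A C : Finset V) (M : V → Finset V)
    (hA : A.Nonempty) (hC : #C ≤ 2 * #A) (hM : ∀ a ∈ A, M a ⊆ C)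
    (hMG : ∀ a ∈ A, ∀ c ∈ M a, G.Adj a c) (hq : ∀ a ∈ A, 6 * k + 1 ≤ #(M a))
    (hd : ∀ a ∈ A, #(M a) ≤ d) (hP : ∀ c ∈ C, #(A.filter (fun a => c ∈ M a)) ≤ P) :
    ∃ H : G.Subgraph, H.verts.Nonempty ∧
      ∀ v ∈ H.verts, k < (H.neighborSet v).ncard ∧ (H.neighborSet v).ncard ≤ d + P := by
  classical
  let r : V → V → Prop := fun u v => (u ∈ A ∧ v ∈ M u) ∨ (v ∈ A ∧ u ∈ M v)
  have hr : ∀ u v, r u v → r v u := by
    intro u v h
    exact h.symm
  have hrG : ∀ u v, r u v → G.Adj u v := by
    rintro u v (⟨h1, h2⟩ | ⟨h1, h2⟩)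
    · exact hMG u h1 v h2
    · exact (hMG v h1 u h2).symm
  have hirr : ∀ v, ¬ r v v := fun v h => G.ne_of_adj (hrG v v h) rfl
  have hApos : 0 < #A := card_pos.mpr hA
  have h1 : (6 * k + 1) * #A ≤ ∑ v ∈ A ∪ C, #((A ∪ C).filter (r v)) := by
    calc (6 * k + 1) * #A = ∑ a ∈ A, (6 * k + 1) := by rw [sum_const, smul_eq_mul, mul_comm]
      _ ≤ ∑ a ∈ A, #((A ∪ C).filter (r a)) := by
          apply sum_le_sum
          intro a ha
          refine (hq a ha).trans (card_le_card ?_)
          intro c hc
          rw [mem_filter]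
          exact ⟨mem_union_right _ (hM a ha hc), Or.inl ⟨ha, hc⟩⟩
      _ ≤ _ := sum_le_sum_of_subset subset_union_left
  have h2 : #(A ∪ C) ≤ 3 * #A := (card_union_le _ _).trans (by omega)
  obtain ⟨S, hSsub, hSne, hSdeg⟩ := peel r hr hirr k _ (A ∪ C) rfl (by
    calc 2 * k * #(A ∪ C) ≤ 2 * k * (3 * #A) := Nat.mul_le_mul_left _ h2
      _ = 6 * k * #A := by ring
      _ < (6 * k + 1) * #A := by nlinarith
      _ ≤ _ := h1)
  let H : G.Subgraph :=
    { verts := (S : Set V)
      Adj := fun u v => u ∈ S ∧ v ∈ S ∧ r u v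
      adj_sub := fun h => hrG _ _ h.2.2
      edge_vert := fun h => h.1
      symm := ⟨fun u v h => ⟨h.2.1, h.1, hr _ _ h.2.2⟩⟩ }
  have hH : ∀ v ∈ S, (H.neighborSet v).ncard = #(S.filter (r v)) := by
    intro v hv
    have : H.neighborSet v = ((S.filter (r v) : Finset V) : Set V) := by
      ext w
      rw [mem_coe, mem_filter]
      exact ⟨fun h => ⟨h.2.1, h.2.2⟩, fun h => ⟨hv, h.1, h.2⟩⟩
    rw [this, Set.ncard_coe_finset]
  refine ⟨H, hSne, ?_⟩
  intro v hv
  have hv' : v ∈ S := hv
  rw [hH v hv']
  refine ⟨hSdeg v hv', ?_⟩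
  have h3 : S.filter (r v) ⊆ (if v ∈ A then M v else ∅) ∪ A.filter (fun a => v ∈ M a) := by
    intro w hw
    rw [mem_filter] at hw
    rcases hw.2 with h | h
    · rw [mem_union, if_pos h.1]; exact Or.inl h.2
    · rw [mem_union, mem_filter]; exact Or.inr h
  refine (card_le_card h3).trans ((card_union_le _ _).trans (Nat.add_le_add ?_ ?_))
  · split_ifs with h
    · exact hd v h
    · simp
  · by_cases hvC : v ∈ C
    · exact hP v hvC
    · have : A.filter (fun a => v ∈ M a) = ∅ := by
        rw [filter_eq_empty_iff]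
        intro a ha hva
        exact hvC (hM a ha hva)
      rw [this]; simp

/-- greedy choice of a subset of `A` meeting no `M`-fibre in more than `P` points -/
lemma greedy (A C : Finset V) (M : V → Finset V) (d P E : ℕ)
    (hd : ∀ a ∈ A, #(M a) ≤ d)
    (hE : ∀ c ∈ C, #(A.filter (fun a => c ∈ M a)) ≤ E) :
    ∃ A' ⊆ A, (∀ c ∈ C, #(A'.filter (fun a => c ∈ M a)) ≤ P) ∧
      P * #A ≤ (P + d * E) * #A' := by
  classical
  obtain ⟨A', hA', hmax⟩ := exists_max_image (A.powerset.filter
    (fun B => ∀ c ∈ C, #(B.filter (fun a => c ∈ M a)) ≤ P)) card ⟨∅, by simp⟩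
  rw [mem_filter, mem_powerset] at hA'
  refine ⟨A', hA'.1, hA'.2, ?_⟩
  set S : Finset V := C.filter (fun c => #(A'.filter (fun a => c ∈ M a)) = P) with hS
  -- every element outside `A'` has a saturated neighbour
  have h1 : ∀ a ∈ A \ A', ∃ c ∈ S, c ∈ M a := by
    intro a ha
    rw [mem_sdiff] at ha
    by_contra hcon
    push Not at hcon
    have h2 : insert a A' ∈ A.powerset.filter
        (fun B => ∀ c ∈ C, #(B.filter (fun a => c ∈ M a)) ≤ P) := by
      rw [mem_filter, mem_powerset]
      refine ⟨insert_subset ha.1 hA'.1, ?_⟩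
      intro c hc
      rw [filter_insert]
      split_ifs with h
      · have h3 : c ∉ S := fun hcS => hcon c hcS h
        rw [hS, mem_filter] at h3
        have h4 := hA'.2 c hc
        have h5 : #(A'.filter (fun a => c ∈ M a)) ≠ P := fun h => h3 ⟨hc, h⟩
        have h6 := card_insert_le a (A'.filter (fun a => c ∈ M a))
        omega
      · exact hA'.2 c hc
    have h3 := hmax _ h2
    rw [card_insert_of_notMem ha.2] at h3
    omega
  have h2 : #(A \ A') ≤ E * #S := by
    have : A \ A' ⊆ S.biUnion (fun c => A.filter (fun a => c ∈ M a)) := by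
      intro a ha
      obtain ⟨c, hc, hca⟩ := h1 a ha
      rw [mem_biUnion]
      exact ⟨c, hc, mem_filter.mpr ⟨(mem_sdiff.mp ha).1, hca⟩⟩
    refine (card_le_card this).trans (card_biUnion_le.trans ?_)
    calc ∑ c ∈ S, #(A.filter (fun a => c ∈ M a)) ≤ ∑ c ∈ S, E :=
          sum_le_sum (fun c hc => hE c (mem_filter.mp hc).1)
      _ = E * #S := by rw [sum_const, smul_eq_mul, mul_comm]
  have h3 : P * #S ≤ d * #A' := by
    calc P * #S = ∑ c ∈ S, P := by rw [sum_const, smul_eq_mul, mul_comm]
      _ = ∑ c ∈ S, #(A'.filter (fun a => c ∈ M a)) := by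
          apply sum_congr rfl
          intro c hc
          exact (mem_filter.mp hc).2.symm
      _ = ∑ c ∈ S, ∑ a ∈ A', (if c ∈ M a then 1 else 0) := by
          apply sum_congr rfl
          intro c _
          rw [card_filter]
      _ = ∑ a ∈ A', ∑ c ∈ S, (if c ∈ M a then 1 else 0) := sum_comm
      _ ≤ ∑ a ∈ A', d := by
          apply sum_le_sum
          intro a ha
          rw [← card_filter]
          refine (card_le_card ?_).trans (hd a (hA'.1 ha))
          intro c hc
          exact (mem_filter.mp hc).2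
      _ = d * #A' := by rw [sum_const, smul_eq_mul, mul_comm]
  have h4 : #A = #A' + #(A \ A') := by
    rw [card_sdiff_of_subset hA'.1]
    have := card_le_card hA'.1
    omega
  calc P * #A = P * #A' + P * #(A \ A') := by rw [h4]; ring
    _ ≤ P * #A' + P * (E * #S) := by gcongr
    _ = P * #A' + E * (P * #S) := by ring
    _ ≤ P * #A' + E * (d * #A') := by gcongr
    _ = (P + d * E) * #A' := by ring

/-- **Subgraphs with all degrees in a polynomially bounded interval.** -/
theorem upper (G : SimpleGraph V) (k m R : ℕ) (hk : 1 ≤ k) (hm : 1 ≤ m) (hR : 1 ≤ R)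
    [Nonempty V] (hV : Fintype.card V ≤ R ^ m)
    (he : 2 * m * (6 * k + 1) * Fintype.card V ≤ G.edgeSet.ncard) :
    ∃ H : G.Subgraph, H.verts.Nonempty ∧
      ∀ v ∈ H.verts, k < (H.neighborSet v).ncard ∧
        (H.neighborSet v).ncard ≤ 406 * m ^ 3 * k ^ 2 * R := by
  classical
  set q : ℕ := 6 * k + 1 with hq
  set d : ℕ := 2 * m * q with hd
  set T : ℕ := 2 * m * d with hT
  set P : ℕ := 2 * m * d ^ 2 * R with hP
  have hq7 : q ≤ 7 * k := by omega
  have hq1 : 1 ≤ q := by omega
  have hd1 : 2 ≤ d := by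
    rw [hd]
    calc 2 = 2 * 1 * 1 := rfl
      _ ≤ 2 * m * q := by gcongr
  have hd14 : d ≤ 14 * m * k := by
    calc d = 2 * m * q := hd
      _ ≤ 2 * m * (7 * k) := by gcongr
      _ = 14 * m * k := by ring
  have hP392 : P ≤ 392 * m ^ 3 * k ^ 2 * R := by
    calc P = 2 * m * d ^ 2 * R := hP
      _ ≤ 2 * m * (14 * m * k) ^ 2 * R := by gcongr
      _ = _ := by ring
  have hT1 : 1 ≤ T := by
    rw [hT]
    calc 1 ≤ 2 * 1 * 1 := by norm_num
      _ ≤ 2 * m * d := by gcongr; omega
  have hTP : T ≤ P := by
    rw [hT, hP]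
    calc 2 * m * d = 2 * m * d ^ 1 * 1 := by ring
      _ ≤ 2 * m * d ^ 2 * R := by
          gcongr
          · omega
          · norm_num
  have hP1 : 1 ≤ P := hT1.trans hTP
  have hfin : d + P ≤ 406 * m ^ 3 * k ^ 2 * R := by
    have h1 : 14 * m * k ≤ 14 * m ^ 3 * k ^ 2 * R := by
      have hm3 : m ≤ m ^ 3 := Nat.le_self_pow (by norm_num) m
      have hk2 : k ≤ k ^ 2 := Nat.le_self_pow (by norm_num) k
      calc 14 * m * k = 14 * m * k * 1 := by ring
        _ ≤ 14 * m ^ 3 * k ^ 2 * R := by gcongr
    calc d + P ≤ 14 * m ^ 3 * k ^ 2 * R + 392 * m ^ 3 * k ^ 2 * R := by omega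
      _ = _ := by ring
  -- a set `X` in which all degrees are at least `d`
  have hsum : ∑ v : V, #((univ : Finset V).filter (G.Adj v)) = 2 * G.edgeSet.ncard := by
    have h1 := G.sum_degrees_eq_twice_card_edges
    have e1 : G.edgeSet.ncard = #G.edgeFinset := by
      rw [Set.ncard_eq_toFinset_card']
      rfl
    rw [e1, ← h1]
    apply sum_congr rfl
    intro v _
    rw [← SimpleGraph.card_neighborFinset_eq_degree, SimpleGraph.neighborFinset_eq_filter]
  obtain ⟨X, _, hXne, hX⟩ := peel G.Adj (fun u v h => h.symm) (fun v => G.irrefl) (d - 1) _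
    (univ : Finset V) rfl (by
      rw [hsum, card_univ]
      have hVpos : 0 < Fintype.card V := Fintype.card_pos
      calc 2 * (d - 1) * Fintype.card V < 2 * d * Fintype.card V := by
            apply Nat.mul_lt_mul_of_pos_right _ hVpos
            omega
        _ = 2 * (d * Fintype.card V) := by ring
        _ ≤ 2 * G.edgeSet.ncard := Nat.mul_le_mul_left _ he)
  have hN0 : ∀ x, ∃ s : Finset V, x ∈ X → (s ⊆ X.filter (G.Adj x) ∧ #s = d) := by
    intro x
    by_cases hx : x ∈ X
    · obtain ⟨s, hs1, hs2⟩ := exists_subset_card_eq (show d ≤ #(X.filter (G.Adj x)) by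
        have := hX x hx; omega)
      exact ⟨s, fun _ => ⟨hs1, hs2⟩⟩
    · exact ⟨∅, fun h => absurd h hx⟩
  choose N hN using hN0
  -- the in-degrees and the classes
  let din : V → ℕ := fun y => #(X.filter (fun x => y ∈ N x))
  have hdin : ∀ y, din y ≤ T * R ^ m := by
    intro y
    calc din y ≤ #X := card_filter_le _ _
      _ ≤ Fintype.card V := card_le_univ X
      _ ≤ 1 * R ^ m := by rw [one_mul]; exact hV
      _ ≤ T * R ^ m := Nat.mul_le_mul_right _ hT1
  have hex : ∀ y, ∃ j, din y ≤ T * R ^ j := fun y => ⟨m, hdin y⟩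
  let cl : V → ℕ := fun y => Nat.find (hex y)
  have hcl : ∀ y, din y ≤ T * R ^ (cl y) := fun y => Nat.find_spec (hex y)
  have hclm : ∀ y, cl y ≤ m := fun y => Nat.find_min' (hex y) (hdin y)
  have hcl' : ∀ y j, cl y = j + 1 → T * R ^ j < din y := by
    intro y j h
    have h1 := Nat.find_min (hex y) (m := j) (by
      have : cl y = Nat.find (hex y) := rfl
      omega)
    omega
  have hsumN : ∀ x ∈ X, ∑ j ∈ range (m + 1), #((N x).filter (fun y => cl y = j)) = d := by
    intro x hx
    rw [← (hN x hx).2]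
    exact (card_eq_sum_card_fiberwise (fun y _ => by
      have := hclm y
      simp only [coe_range, Set.mem_Iio]; omega)).symm
  let Aj : ℕ → Finset V := fun j => X.filter (fun x => q ≤ #((N x).filter (fun y => cl y = j)))
  have hXpos : 0 < #X := card_pos.mpr hXne
  -- the sum of all in-degrees
  have hsumdin : ∀ j, ∑ y ∈ X.filter (fun y => cl y = j), din y ≤ d * #X := by
    intro j
    calc ∑ y ∈ X.filter (fun y => cl y = j), din y
        = ∑ y ∈ X.filter (fun y => cl y = j), ∑ x ∈ X, (if y ∈ N x then 1 else 0) := by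
          apply sum_congr rfl
          intro y _
          rw [← card_filter]
      _ = ∑ x ∈ X, ∑ y ∈ X.filter (fun y => cl y = j), (if y ∈ N x then 1 else 0) := sum_comm
      _ ≤ ∑ x ∈ X, d := by
          apply sum_le_sum
          intro x hx
          rw [← card_filter]
          rw [← (hN x hx).2]
          apply card_le_card
          intro y hy
          exact (mem_filter.mp hy).2
      _ = d * #X := by rw [sum_const, smul_eq_mul, mul_comm]
  have hMsub : ∀ j, ∀ a ∈ Aj j, (N a).filter (fun y => cl y = j) ⊆ X.filter (fun y => cl y = j) := by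
    intro j a ha y hy
    rw [mem_filter] at hy ⊢
    have haX : a ∈ X := (mem_filter.mp ha).1
    exact ⟨(mem_filter.mp ((hN a haX).1 hy.1)).1, hy.2⟩
  have hMG : ∀ j, ∀ a ∈ Aj j, ∀ c ∈ (N a).filter (fun y => cl y = j), G.Adj a c := by
    intro j a ha c hc
    have haX : a ∈ X := (mem_filter.mp ha).1
    exact (mem_filter.mp ((hN a haX).1 (mem_filter.mp hc).1)).2
  have hMd : ∀ j, ∀ a ∈ Aj j, #((N a).filter (fun y => cl y = j)) ≤ d := by
    intro j a ha
    have haX : a ∈ X := (mem_filter.mp ha).1
    rw [← (hN a haX).2]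
    exact card_filter_le _ _
  have hfibre : ∀ j, ∀ c, #((Aj j).filter (fun a => c ∈ (N a).filter (fun y => cl y = j))) ≤ din c := by
    intro j c
    apply card_le_card
    intro a ha
    rw [mem_filter] at ha ⊢
    exact ⟨(mem_filter.mp ha.1).1, (mem_filter.mp ha.2).1⟩
  by_cases h0 : #X ≤ 2 * #(Aj 0)
  · -- many elements of low class
    obtain ⟨H, hH1, hH2⟩ := finish G k d T (Aj 0) (X.filter (fun y => cl y = 0))
      (fun a => (N a).filter (fun y => cl y = 0)) (by rw [← card_pos]; omega)
      ((card_filter_le _ _).trans h0) (hMsub 0) (hMG 0) (fun a ha => (mem_filter.mp ha).2)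
      (hMd 0) (by
        intro c hc
        refine (hfibre 0 c).trans ?_
        have h1 := hcl c
        rw [(mem_filter.mp hc).2] at h1
        simpa using h1)
    refine ⟨H, hH1, fun v hv => ⟨(hH2 v hv).1, (hH2 v hv).2.trans ?_⟩⟩
    omega
  · -- a class with many elements
    push Not at h0
    obtain ⟨j, hj1, hjm, hj⟩ : ∃ j, 1 ≤ j ∧ j ≤ m ∧ #X ≤ 2 * m * #(Aj j) := by
      by_contra hcon
      push Not at hcon
      have hcov : X ⊆ Aj 0 ∪ (Icc 1 m).biUnion Aj := by
        intro x hx
        by_contra hx'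
        rw [mem_union, mem_biUnion] at hx'
        push Not at hx'
        have h1 : ∀ j ∈ range (m + 1), #((N x).filter (fun y => cl y = j)) ≤ q - 1 := by
          intro j hj
          rw [mem_range] at hj
          rcases Nat.eq_zero_or_pos j with rfl | hj0
          · have := hx'.1
            simp only [Aj, mem_filter, hx, true_and] at this
            omega
          · have := hx'.2 j (by rw [mem_Icc]; omega)
            simp only [Aj, mem_filter, hx, true_and] at this
            omega
        have h2 := hsumN x hx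
        have h3 : ∑ j ∈ range (m + 1), #((N x).filter (fun y => cl y = j)) ≤ (m + 1) * (q - 1) := by
          calc _ ≤ ∑ j ∈ range (m + 1), (q - 1) := sum_le_sum h1
            _ = _ := by simp
        rw [h2] at h3
        have h4 : (m + 1) * (q - 1) < d := by
          calc (m + 1) * (q - 1) < (m + 1) * q := by
                apply Nat.mul_lt_mul_of_pos_left _ (by omega)
                omega
            _ ≤ 2 * m * q := by
                apply Nat.mul_le_mul_right; omega
        omega
      have h1 : #X ≤ #(Aj 0) + ∑ j ∈ Icc 1 m, #(Aj j) :=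
        (card_le_card hcov).trans ((card_union_le _ _).trans (Nat.add_le_add_left card_biUnion_le _))
      have h2 : 2 * m * ∑ j ∈ Icc 1 m, #(Aj j) ≤ m * (#X - 1) := by
        rw [mul_sum]
        calc ∑ j ∈ Icc 1 m, 2 * m * #(Aj j) ≤ ∑ j ∈ Icc 1 m, (#X - 1) := by
              apply sum_le_sum
              intro j hj
              rw [mem_Icc] at hj
              have := hcon j hj.1 hj.2
              omega
          _ = m * (#X - 1) := by simp
      have h3 : 2 * ∑ j ∈ Icc 1 m, #(Aj j) ≤ #X - 1 := by
        have : m * (2 * ∑ j ∈ Icc 1 m, #(Aj j)) ≤ m * (#X - 1) := by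
          calc m * (2 * ∑ j ∈ Icc 1 m, #(Aj j)) = 2 * m * ∑ j ∈ Icc 1 m, #(Aj j) := by ring
            _ ≤ _ := h2
        exact Nat.le_of_mul_le_mul_left this (by omega)
      omega
    obtain ⟨i, rfl⟩ : ∃ i, j = i + 1 := ⟨j - 1, by omega⟩
    set D : ℕ := T * R ^ i with hD
    have hD1 : 1 ≤ D := Nat.mul_pos hT1 (Nat.pow_pos hR)
    have hTD : T ≤ D := Nat.le_mul_of_pos_right _ (Nat.pow_pos hR)
    set C : Finset V := X.filter (fun y => cl y = i + 1) with hC
    have hCD : D * #C ≤ d * #X := by
      refine le_trans ?_ (hsumdin (i + 1))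
      calc D * #C = ∑ y ∈ C, D := by rw [sum_const, smul_eq_mul, mul_comm]
        _ ≤ ∑ y ∈ C, din y := by
            apply sum_le_sum
            intro y hy
            exact (hcl' y i (mem_filter.mp hy).2).le
    have hE : ∀ c ∈ C, din c ≤ D * R := by
      intro c hc
      have h1 := hcl c
      rw [(mem_filter.mp hc).2, pow_succ, ← mul_assoc] at h1
      exact h1
    obtain ⟨A', hA', hA'P, hA'card⟩ := greedy (Aj (i+1)) C
      (fun a => (N a).filter (fun y => cl y = i + 1)) d P (D * R) (hMd (i+1))
      (fun c hc => (hfibre (i+1) c).trans (hE c hc))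
    have hAjpos : 0 < #(Aj (i+1)) := by
      by_contra h
      have : #(Aj (i+1)) = 0 := by omega
      rw [this] at hj
      omega
    have hA'pos : 0 < #A' := by
      by_contra h
      have h1 : #A' = 0 := by omega
      rw [h1, mul_zero] at hA'card
      have : 0 < P * #(Aj (i+1)) := Nat.mul_pos hP1 hAjpos
      omega
    have hCA : #C ≤ 2 * #A' := by
      -- `P D |C| ≤ P d |X| ≤ 2 m d P |A| ≤ 2 m d (P + d D R) |A'|`
      have h1 : P * (D * #C) ≤ 2 * m * d * ((P + d * (D * R)) * #A') := by
        calc P * (D * #C) ≤ P * (d * #X) := Nat.mul_le_mul_left _ hCD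
          _ ≤ P * (d * (2 * m * #(Aj (i+1)))) := by gcongr
          _ = 2 * m * d * (P * #(Aj (i+1))) := by ring
          _ ≤ _ := Nat.mul_le_mul_left _ hA'card
      have h2 : 2 * m * d * ((P + d * (D * R)) * #A') = P * ((T + D) * #A') := by
        rw [hT, hP]; ring
      rw [h2] at h1
      have h3 : D * #C ≤ (T + D) * #A' := Nat.le_of_mul_le_mul_left h1 hP1
      have h4 : D * #C ≤ D * (2 * #A') := by
        calc D * #C ≤ (T + D) * #A' := h3
          _ ≤ (D + D) * #A' := by gcongr
          _ = D * (2 * #A') := by ring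
      exact Nat.le_of_mul_le_mul_left h4 hD1
    obtain ⟨H, hH1, hH2⟩ := finish G k d P A' C
      (fun a => (N a).filter (fun y => cl y = i + 1)) (card_pos.mp hA'pos) hCA
      (fun a ha => hMsub (i+1) a (hA' ha)) (fun a ha => hMG (i+1) a (hA' ha))
      (fun a ha => (mem_filter.mp (hA' ha)).2) (fun a ha => hMd (i+1) a (hA' ha)) hA'P
    exact ⟨H, hH1, fun v hv => ⟨(hH2 v hv).1, (hH2 v hv).2.trans hfin⟩⟩

end Pool.Agent.KS6_69.QR
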