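import Mathlib
import Pool.Agent.KS6_69.QRLower
import Pool.Agent.KS6_69.QRUpper

set_option autoImplicit false

/-!
# Auxiliary statements for the final theorem
-/

namespace Pool.Agent.KS6_69.QR

open Finset Filter Topology

lemma good_not (k Δ : ℕ) {V : Type*} {G : SimpleGraph V} (hG : Good k Δ G) (H : G.Subgraph)
    (hne : H.verts.Nonempty)
    (h : ∀ v ∈ H.verts, k < (H.neighborSet v).ncard ∧ (H.neighborSet v).ncard ≤ Δ) : False := by
  obtain ⟨v, hv, hlt⟩ := hG H hne (fun v hv => (h v hv).1)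
  have := (h v hv).2
  omega

/-- graphs of arbitrary density -/
lemma exists_dense (k Δ : ℕ) (hk : 2 ≤ k) (hΔ : k < Δ) (F : ℝ) :
    ∃ n : ℕ, 1 ≤ n ∧ ∃ G : SimpleGraph (Fin n), F * n ≤ G.edgeSet.ncard ∧ Good k Δ G := by
  have hlΔ : 0 < Real.log Δ := Real.log_pos (by exact_mod_cast (show 1 < Δ by omega))
  have h1 : Tendsto (fun n : ℕ => (k : ℝ) / 120 * Real.log (Real.log n / Real.log Δ)) atTop atTop := by
    apply Tendsto.const_mul_atTop
    · have : (0 : ℝ) < k := by exact_mod_cast (show 0 < k by omega)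
      positivity
    · apply Real.tendsto_log_atTop.comp
      apply Tendsto.atTop_div_const hlΔ
      exact Real.tendsto_log_atTop.comp tendsto_natCast_atTop_atTop
  obtain ⟨n, hn1, hn⟩ := ((h1.eventually_ge_atTop F).and (eventually_ge_atTop 1)).exists
  obtain ⟨G, hG1, hG2⟩ := lower k Δ n hk hΔ
  refine ⟨n, hn, G, ?_, hG2⟩
  refine le_trans ?_ hG1
  calc F * n ≤ ((k : ℝ) / 120 * Real.log (Real.log n / Real.log Δ)) * n := by gcongr
    _ = _ := by ring

/-- a graph with at least as many edges as vertices has a `2`-regular subgraph -/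
lemma exists_two_regular (n : ℕ) (hn : 1 ≤ n) (G : SimpleGraph (Fin n))
    (h : n ≤ G.edgeSet.ncard) :
    ∃ H : G.Subgraph, H.verts.Nonempty ∧ ∀ v ∈ H.verts, (H.neighborSet v).ncard = 2 := by
  classical
  have hna : ¬ G.IsAcyclic := by
    intro hG
    obtain ⟨T, hle, hT⟩ := Finite.exists_le_maximal hG
    have : Nonempty (Fin n) := ⟨⟨0, hn⟩⟩
    have hTree : T.IsTree := SimpleGraph.isTree_iff_maximal_isAcyclic.mpr ⟨inferInstance, hT⟩
    have h1 := hTree.card_edgeFinset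
    rw [Fintype.card_fin] at h1
    have h2 : G.edgeSet.ncard ≤ T.edgeSet.ncard :=
      Set.ncard_le_ncard (SimpleGraph.edgeSet_subset_edgeSet.mpr hle) (Set.toFinite _)
    have e2 : T.edgeSet.ncard = #T.edgeFinset := by
      rw [Set.ncard_eq_toFinset_card']
      rfl
    omega
  unfold SimpleGraph.IsAcyclic at hna
  push Not at hna
  obtain ⟨v, c, hc⟩ := hna
  refine ⟨c.toSubgraph, ⟨v, by simp⟩, ?_⟩
  intro w hw
  exact hc.ncard_neighborSet_toSubgraph_eq_two (by simpa using hw)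

/-- the lower bound for subgraphs of maximum degree at most `exp √(log n)` -/
lemma loglog (k : ℕ) (hk : 2 ≤ k) : ∀ᶠ n : ℕ in atTop, ∃ G : SimpleGraph (Fin n),
    (k : ℝ) / 240 * n * Real.log (Real.log n) ≤ G.edgeSet.ncard ∧
    Good k ⌊Real.exp (Real.sqrt (Real.log n))⌋₊ G := by
  have h1 : Tendsto (fun n : ℕ => Real.exp (Real.sqrt (Real.log n))) atTop atTop :=
    Real.tendsto_exp_atTop.comp (Real.tendsto_sqrt_atTop.comp
      (Real.tendsto_log_atTop.comp tendsto_natCast_atTop_atTop))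
  filter_upwards [h1.eventually_ge_atTop ((k : ℝ) + 1), eventually_ge_atTop 3] with n hn hn3
  set Δ : ℕ := ⌊Real.exp (Real.sqrt (Real.log n))⌋₊ with hΔ
  have hkΔ : k < Δ := by
    have : k + 1 ≤ Δ := Nat.le_floor (by exact_mod_cast hn)
    omega
  obtain ⟨G, hG1, hG2⟩ := lower k Δ n hk hkΔ
  refine ⟨G, ?_, hG2⟩
  refine le_trans ?_ hG1
  have hΔ1 : (1 : ℝ) < Δ := by exact_mod_cast (show 1 < Δ by omega)
  have hlΔ : 0 < Real.log Δ := Real.log_pos hΔ1
  have hn0 : (1 : ℝ) < n := by exact_mod_cast (show 1 < n by omega)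
  have hlogn : 0 < Real.log n := Real.log_pos hn0
  have h2 : Real.log Δ ≤ Real.sqrt (Real.log n) := by
    have : (Δ : ℝ) ≤ Real.exp (Real.sqrt (Real.log n)) := Nat.floor_le (by positivity)
    have h3 := Real.log_le_log (by linarith) this
    rwa [Real.log_exp] at h3
  have hs : 0 < Real.sqrt (Real.log n) := Real.sqrt_pos.mpr hlogn
  have h3 : Real.sqrt (Real.log n) ≤ Real.log n / Real.log Δ := by
    rw [le_div_iff₀ hlΔ]
    calc Real.sqrt (Real.log n) * Real.log Δ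
        ≤ Real.sqrt (Real.log n) * Real.sqrt (Real.log n) := by gcongr
      _ = Real.log n := Real.mul_self_sqrt hlogn.le
  have h4 : Real.log (Real.log n) / 2 ≤ Real.log (Real.log n / Real.log Δ) := by
    rw [← Real.log_sqrt hlogn.le]
    exact Real.log_le_log hs h3
  calc (k : ℝ) / 240 * n * Real.log (Real.log n)
      = (k : ℝ) / 120 * n * (Real.log (Real.log n) / 2) := by ring
    _ ≤ _ := by gcongr

/-- the lower bound for polynomially bounded degrees -/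
lemma power_lower (k : ℕ) (hk : 2 ≤ k) (δ : ℝ) (hδ : 0 < δ) :
    ∀ᶠ n : ℕ in atTop, ∃ G : SimpleGraph (Fin n),
      (k : ℝ) / 120 * Real.log (1 / δ) * n ≤ G.edgeSet.ncard ∧
      Good k ⌊(n : ℝ) ^ δ⌋₊ G := by
  have h1 : Tendsto (fun n : ℕ => (n : ℝ) ^ δ) atTop atTop :=
    (tendsto_rpow_atTop hδ).comp tendsto_natCast_atTop_atTop
  filter_upwards [h1.eventually_ge_atTop ((k : ℝ) + 1), eventually_ge_atTop 3] with n hn hn3
  set Δ : ℕ := ⌊(n : ℝ) ^ δ⌋₊ with hΔ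
  have hkΔ : k < Δ := by
    have : k + 1 ≤ Δ := Nat.le_floor (by exact_mod_cast hn)
    omega
  obtain ⟨G, hG1, hG2⟩ := lower k Δ n hk hkΔ
  refine ⟨G, ?_, hG2⟩
  refine le_trans ?_ hG1
  have hΔ1 : (1 : ℝ) < Δ := by exact_mod_cast (show 1 < Δ by omega)
  have hlΔ : 0 < Real.log Δ := Real.log_pos hΔ1
  have hn0 : (1 : ℝ) < n := by exact_mod_cast (show 1 < n by omega)
  have hlogn : 0 < Real.log n := Real.log_pos hn0
  have h2 : Real.log Δ ≤ δ * Real.log n := by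
    have : (Δ : ℝ) ≤ (n : ℝ) ^ δ := Nat.floor_le (by positivity)
    have h3 := Real.log_le_log (by linarith) this
    rwa [Real.log_rpow (by linarith)] at h3
  have h3 : 1 / δ ≤ Real.log n / Real.log Δ := by
    rw [div_le_div_iff₀ hδ hlΔ]
    linarith
  have h4 : Real.log (1 / δ) ≤ Real.log (Real.log n / Real.log Δ) :=
    Real.log_le_log (by positivity) h3
  calc (k : ℝ) / 120 * Real.log (1 / δ) * n
      = (k : ℝ) / 120 * n * Real.log (1 / δ) := by ring
    _ ≤ _ := by gcongr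

/-- the upper bound for polynomially bounded degrees -/
lemma power_upper (k : ℕ) (hk : 1 ≤ k) (δ : ℝ) (hδ : 0 < δ) (hδ1 : δ < 1) :
    ∀ᶠ n : ℕ in atTop, ∀ G : SimpleGraph (Fin n), 42 * k / δ * n ≤ G.edgeSet.ncard →
      ∃ H : G.Subgraph, H.verts.Nonempty ∧ ∀ v ∈ H.verts, k < (H.neighborSet v).ncard ∧
        ((H.neighborSet v).ncard : ℝ) ≤ (n : ℝ) ^ δ := by
  set m : ℕ := ⌈2 / δ⌉₊ with hm
  have hm2 : 2 / δ ≤ m := Nat.le_ceil _
  have hm3 : (m : ℝ) ≤ 3 / δ := by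
    have h1 : (m : ℝ) < 2 / δ + 1 := Nat.ceil_lt_add_one (by positivity)
    have h2 : 1 ≤ 1 / δ := by rw [le_div_iff₀ hδ]; linarith
    have h3 : 3 / δ = 2 / δ + 1 / δ := by ring
    linarith
  have hmpos : (0 : ℝ) < m := lt_of_lt_of_le (by positivity) hm2
  have hm1 : 1 ≤ m := by
    have : 0 < m := by exact_mod_cast hmpos
    omega
  have h1 : Tendsto (fun n : ℕ => (n : ℝ) ^ (δ / 2)) atTop atTop :=
    (tendsto_rpow_atTop (by positivity)).comp tendsto_natCast_atTop_atTop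
  filter_upwards [h1.eventually_ge_atTop (812 * (m : ℝ) ^ 3 * (k : ℝ) ^ 2), eventually_ge_atTop 2]
    with n hn hn2
  intro G he
  have hn1 : (1 : ℝ) ≤ n := by exact_mod_cast (show 1 ≤ n by omega)
  have hn0 : (0 : ℝ) ≤ n := by linarith
  set R : ℕ := ⌈(n : ℝ) ^ (1 / (m : ℝ))⌉₊ with hR
  have hpow1 : (1 : ℝ) ≤ (n : ℝ) ^ (1 / (m : ℝ)) := Real.one_le_rpow hn1 (by positivity)
  have hRge : (n : ℝ) ^ (1 / (m : ℝ)) ≤ R := Nat.le_ceil _
  have hR1 : 1 ≤ R := by
    have : (1 : ℝ) ≤ R := hpow1.trans hRge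
    exact_mod_cast this
  have hRm : n ≤ R ^ m := by
    have h2 : ((n : ℝ) ^ (1 / (m : ℝ))) ^ m ≤ (R : ℝ) ^ m := pow_le_pow_left₀ (by positivity) hRge m
    rw [← Real.rpow_natCast, ← Real.rpow_mul hn0, one_div, inv_mul_cancel₀ hmpos.ne',
      Real.rpow_one] at h2
    exact_mod_cast h2
  have : Nonempty (Fin n) := ⟨⟨0, by omega⟩⟩
  obtain ⟨H, hH1, hH2⟩ := upper G k m R hk hm1 hR1 (by rw [Fintype.card_fin]; exact hRm) (by
    rw [Fintype.card_fin]
    have hk1 : (1 : ℝ) ≤ k := by exact_mod_cast hk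
    have h2 : (2 * m * (6 * k + 1) * n : ℝ) ≤ G.edgeSet.ncard := by
      refine le_trans ?_ he
      have h3 : (2 * m * (6 * k + 1) : ℝ) ≤ 42 * k / δ := by
        calc (2 * m * (6 * k + 1) : ℝ) ≤ 2 * (3 / δ) * (7 * k) := by
              gcongr
              linarith
          _ = 42 * k / δ := by ring
      gcongr
    exact_mod_cast h2)
  refine ⟨H, hH1, fun v hv => ⟨(hH2 v hv).1, ?_⟩⟩
  have h2 : ((H.neighborSet v).ncard : ℝ) ≤ 406 * (m : ℝ) ^ 3 * (k : ℝ) ^ 2 * R := by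
    exact_mod_cast (hH2 v hv).2
  have h3 : (R : ℝ) ≤ 2 * (n : ℝ) ^ (δ / 2) := by
    have h4 : (R : ℝ) < (n : ℝ) ^ (1 / (m : ℝ)) + 1 := Nat.ceil_lt_add_one (by positivity)
    have h5 : (n : ℝ) ^ (1 / (m : ℝ)) ≤ (n : ℝ) ^ (δ / 2) := by
      apply Real.rpow_le_rpow_of_exponent_le hn1
      rw [div_le_div_iff₀ hmpos (by norm_num)]
      rw [div_le_iff₀ hδ] at hm2
      linarith
    linarith
  calc ((H.neighborSet v).ncard : ℝ) ≤ 406 * (m : ℝ) ^ 3 * (k : ℝ) ^ 2 * R := h2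
    _ ≤ 406 * (m : ℝ) ^ 3 * (k : ℝ) ^ 2 * (2 * (n : ℝ) ^ (δ / 2)) := by gcongr
    _ = (812 * (m : ℝ) ^ 3 * (k : ℝ) ^ 2) * (n : ℝ) ^ (δ / 2) := by ring
    _ ≤ (n : ℝ) ^ (δ / 2) * (n : ℝ) ^ (δ / 2) := by gcongr
    _ = (n : ℝ) ^ δ := by
      rw [← Real.rpow_add (by linarith)]
      congr 1
      ring

end Pool.Agent.KS6_69.QR
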